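import Pool.Agent.H966Z.QM.Wt

set_option autoImplicit false

open MvPolynomial Module

namespace Pool.Agent.H966Z.QM

noncomputable abbrev P (m : ℕ) : Submodule ℂ A := restrictTotalDegree (Fin 2) ℂ m

theorem mem_P {m : ℕ} {g : A} : g ∈ P m ↔ g.totalDegree ≤ m := mem_restrictTotalDegree _ _ _

theorem finrank_P (m : ℕ) : 2 * finrank ℂ (P m) = (m + 1) * (m + 2) := by
  classical
  have key : ∀ n : Mo, (n.sum fun _ e => e) = n 0 + n 1 := by
    intro n
    rw [Finsupp.sum_fintype _ _ (by simp)]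
    simp
  let S : Finset (Σ _ : ℕ, ℕ × ℕ) := (Finset.range (m + 1)).sigma fun k => Finset.HasAntidiagonal.antidiagonal k
  have h1 : finrank ℂ (P m) = Nat.card {n : Mo | (n.sum fun _ e => e) ≤ m} :=
    finrank_eq_nat_card_basis (basisRestrictSupport ℂ _)
  have h2 : Nat.card {n : Mo | (n.sum fun _ e => e) ≤ m} = S.card := by
    rw [← Fintype.card_coe S, ← Nat.card_eq_fintype_card]
    refine Nat.card_congr ⟨fun n => ⟨⟨n.1 0 + n.1 1, (n.1 0, n.1 1)⟩, ?_⟩,
      fun s => ⟨mo s.1.2.1 s.1.2.2, ?_⟩, ?_, ?_⟩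
    · have := n.2
      simp only [Set.mem_setOf_eq, key] at this
      simp only [S, Finset.mem_sigma, Finset.mem_range, Finset.HasAntidiagonal.mem_antidiagonal, and_true]
      omega
    · have := s.2
      simp only [S, Finset.mem_sigma, Finset.mem_range, Finset.HasAntidiagonal.mem_antidiagonal] at this
      simp only [Set.mem_setOf_eq, key, mo_zero', mo_one']
      omega
    · intro n
      simp [mo_eta]
    · rintro ⟨⟨k, i, j⟩, hs⟩
      simp only [S, Finset.mem_sigma, Finset.mem_range, Finset.HasAntidiagonal.mem_antidiagonal] at hs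
      obtain ⟨_, rfl⟩ := hs
      simp
  rw [h1, h2]
  simp only [S, Finset.card_sigma, Finset.Nat.card_antidiagonal]
  clear h1 h2 S
  induction m with
  | zero => simp
  | succ m ih => rw [Finset.sum_range_succ, mul_add, ih]; ring

/-- index set of the monomials of weight `< l` -/
noncomputable def I (t : ℝ) (K : ℕ) (l : ℝ) : Finset (Σ _ : ℕ, ℕ) :=
  (Finset.range K).sigma fun j => Finset.range ⌈l - t * j⌉₊

noncomputable def Hc (t : ℝ) (K : ℕ) (l : ℝ) : ℕ := ∑ j ∈ Finset.range K, ⌈l - t * j⌉₊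

theorem card_I (t : ℝ) (K : ℕ) (l : ℝ) : (I t K l).card = Hc t K l := by
  simp [I, Hc, Finset.card_sigma]

theorem Hc_succ (t : ℝ) (K : ℕ) (l : ℝ) : Hc t (K + 1) l = ⌈l⌉₊ + Hc t K (l - t) := by
  unfold Hc
  rw [Finset.sum_range_succ', add_comm]
  congr 1
  · simp
  · refine Finset.sum_congr rfl fun j _ => ?_
    congr 1; push_cast; ring

theorem Hc_nonpos {t : ℝ} (ht : 0 < t) (K : ℕ) {l : ℝ} (hl : l ≤ 0) : Hc t K l = 0 := by
  unfold Hc
  refine Finset.sum_eq_zero fun j _ => ?_
  rw [Nat.ceil_eq_zero]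
  have : 0 ≤ t * j := by positivity
  linarith

theorem Hc_le {t : ℝ} (ht : 0 < t) (K : ℕ) : ∀ l : ℝ, 0 ≤ l →
    2 * t * (Hc t K l : ℝ) ≤ (l + t + 1) ^ 2 := by
  induction K with
  | zero => intro l hl; simp [Hc]; positivity
  | succ K ih =>
    intro l hl
    rw [Hc_succ]
    have h1 : (⌈l⌉₊ : ℝ) ≤ l + 1 := (Nat.ceil_lt_add_one hl).le
    push_cast
    by_cases h : t ≤ l
    · have := ih (l - t) (by linarith)
      nlinarith
    · rw [Hc_nonpos ht K (by linarith)]
      simp only [Nat.cast_zero, add_zero]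
      nlinarith [sq_nonneg (l + 1 - t)]

theorem le_Hc {t : ℝ} (ht : 0 < t) (K : ℕ) : ∀ l : ℝ, 0 ≤ l → l ≤ t * K →
    l ^ 2 ≤ 2 * t * (Hc t K l : ℝ) := by
  induction K with
  | zero =>
    intro l hl hl'
    have : l = 0 := by simp at hl'; linarith
    simp [this]
  | succ K ih =>
    intro l hl hl'
    rw [Hc_succ]
    have h1 : l ≤ (⌈l⌉₊ : ℝ) := Nat.le_ceil l
    push_cast at hl' ⊢
    by_cases h : t ≤ l
    · have := ih (l - t) (by linarith) (by linarith)
      nlinarith
    · have : (0 : ℝ) ≤ Hc t K (l - t) := by positivity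
      nlinarith

/-- the jet of weight `< l` -/
noncomputable def jet (t : ℝ) (K : ℕ) (l : ℝ) : A →ₗ[ℂ] (I t K l → ℂ) :=
  LinearMap.pi fun p => lcoeff ℂ (mo p.1.2 p.1.1)

theorem mem_I {t : ℝ} {K : ℕ} {l : ℝ} {i j : ℕ} :
    (⟨j, i⟩ : Σ _ : ℕ, ℕ) ∈ I t K l ↔ j < K ∧ (i : ℝ) + t * j < l := by
  simp only [I, Finset.mem_sigma, Finset.mem_range, Nat.lt_ceil]
  constructor <;> rintro ⟨h1, h2⟩ <;> exact ⟨h1, by linarith⟩

theorem jet_eq_zero_of_GE {t : ℝ} {K : ℕ} {l : ℝ} {g : A} (h : GE 1 t l g) : jet t K l g = 0 := by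
  funext ⟨⟨j, i⟩, hp⟩
  simp only [jet, LinearMap.pi_apply, lcoeff_apply, Pi.zero_apply]
  by_contra hne
  have := h _ (mem_support_iff.2 hne)
  rw [wt_mo] at this
  have := (mem_I.1 hp).2
  linarith

theorem GE_of_jet_eq_zero {t : ℝ} (ht : 1 ≤ t) {K : ℕ} {l : ℝ} (hK : l ≤ K) {g : A}
    (h : jet t K l g = 0) : GE 1 t l g := by
  intro m hm
  by_contra hlt
  push Not at hlt
  unfold wt at hlt
  have h0 : (0 : ℝ) ≤ m 0 := by positivity
  have h1 : (0 : ℝ) ≤ m 1 := by positivity
  have hj : m 1 < K := by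
    have : (m 1 : ℝ) < K := by nlinarith
    exact_mod_cast this
  have hp : (⟨m 1, m 0⟩ : Σ _ : ℕ, ℕ) ∈ I t K l := mem_I.2 ⟨hj, by linarith⟩
  have := congrFun h ⟨_, hp⟩
  simp only [jet, LinearMap.pi_apply, lcoeff_apply, Pi.zero_apply, mo_eta] at this
  exact mem_support_iff.1 hm this

theorem jet_surj (t : ℝ) (K : ℕ) (l : ℝ) : Function.Surjective (jet t K l) := by
  classical
  intro v
  refine ⟨∑ p : I t K l, monomial (mo p.1.2 p.1.1) (v p), ?_⟩
  funext q
  simp only [jet, LinearMap.pi_apply, lcoeff_apply, coeff_sum, coeff_monomial]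
  rw [Finset.sum_eq_single q]
  · simp
  · intro p _ hne
    rw [if_neg]
    intro e
    apply hne
    obtain ⟨⟨j, i⟩, hp⟩ := p
    obtain ⟨⟨j', i'⟩, hq⟩ := q
    obtain ⟨h1, h2⟩ := mo_inj e
    simp only at h1 h2
    subst h1 h2
    rfl
  · simp

theorem finrank_map_le_of_ker {V W W' : Type*} [AddCommGroup V] [Module ℂ V] [AddCommGroup W]
    [Module ℂ W] [AddCommGroup W'] [Module ℂ W'] [FiniteDimensional ℂ W]
    (U : Submodule ℂ V) [FiniteDimensional ℂ U] (f : V →ₗ[ℂ] W) (g : V →ₗ[ℂ] W')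
    (h : ∀ v, f v = 0 → g v = 0) : finrank ℂ (U.map g) ≤ finrank ℂ W := by
  have h1 := (f.domRestrict U).finrank_range_add_finrank_ker
  have h2 := (g.domRestrict U).finrank_range_add_finrank_ker
  have h3 : finrank ℂ (LinearMap.ker (f.domRestrict U)) ≤ finrank ℂ (LinearMap.ker (g.domRestrict U)) :=
    Submodule.finrank_mono (fun v hv => h _ hv)
  have h4 : finrank ℂ (LinearMap.range (f.domRestrict U)) ≤ finrank ℂ W := Submodule.finrank_le _
  rw [LinearMap.range_domRestrict] at h2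
  omega

theorem finrank_map_add_le {V W : Type*} [AddCommGroup V] [Module ℂ V] [AddCommGroup W]
    [Module ℂ W] (U U' : Submodule ℂ V) [FiniteDimensional ℂ U'] (hU : U ≤ U') (f : V →ₗ[ℂ] W) :
    finrank ℂ (U'.map f) + finrank ℂ U ≤ finrank ℂ (U.map f) + finrank ℂ U' := by
  haveI : FiniteDimensional ℂ U := Submodule.finiteDimensional_of_le hU
  have h1 := (f.domRestrict U).finrank_range_add_finrank_ker
  have h2 := (f.domRestrict U').finrank_range_add_finrank_ker
  rw [LinearMap.range_domRestrict] at h1 h2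
  have h3 : finrank ℂ (LinearMap.ker (f.domRestrict U)) ≤
      finrank ℂ (LinearMap.ker (f.domRestrict U')) := by
    let φ : LinearMap.ker (f.domRestrict U) →ₗ[ℂ] LinearMap.ker (f.domRestrict U') :=
      LinearMap.codRestrict _ ((Submodule.inclusion hU).comp (Submodule.subtype _))
        (fun v => by have := v.2; rw [LinearMap.mem_ker] at this ⊢; exact this)
    refine LinearMap.finrank_le_finrank_of_injective (f := φ) ?_
    intro a b hab
    have : (a.1.1 : V) = b.1.1 := congrArg (fun x => (x.1.1 : V)) hab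
    exact Subtype.ext (Subtype.ext this)
  omega

/-- the counting inequality -/
theorem count {t : ℝ} (ht : 1 ≤ t) (σ : A →ₐ[ℂ] A) (hσ : Function.Surjective σ) {F G : A}
    (hF : F ≠ 0) (hG : G ≠ 0) (hc : IsRelPrime F G) {α β : ℝ} (hα : 0 ≤ α) (hβ : 0 ≤ β)
    (hFα : GE 1 t α (σ F)) (hGβ : GE 1 t β (σ G)) (K : ℕ) (hK : α + β ≤ K) :
    Hc t K (α + β) ≤ Hc t K β + Hc t K α + F.totalDegree * G.totalDegree := by
  classical
  set D := F.totalDegree
  set E := G.totalDegree
  let π := (jet t K (α + β)).comp σ.toLinearMap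
  have hπ : Function.Surjective π := (jet_surj _ _ _).comp hσ
  obtain ⟨m0, hm0⟩ : ∃ m0, (P m0).map π = ⊤ := by
    choose g hg using fun p : I t K (α + β) => hπ (Pi.single p 1)
    refine ⟨Finset.univ.sup fun p => (g p).totalDegree, ?_⟩
    rw [eq_top_iff]
    intro v _
    refine ⟨∑ p, v p • g p, ?_, ?_⟩
    · refine Submodule.sum_mem _ fun p _ => Submodule.smul_mem _ _ ?_
      exact mem_P.2 (Finset.le_sup (f := fun p => (g p).totalDegree) (Finset.mem_univ p))
    · simp only [map_sum, map_smul, hg]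
      funext q
      simp [Pi.single_apply]
  let k := m0
  let U1 := (P (k + E)).map (LinearMap.mulLeft ℂ F)
  let U2 := (P (k + D)).map (LinearMap.mulLeft ℂ G)
  have hinjF : Function.Injective (LinearMap.mulLeft ℂ F) := mul_right_injective₀ hF
  have hinjG : Function.Injective (LinearMap.mulLeft ℂ G) := mul_right_injective₀ hG
  have r1 : finrank ℂ U1 = finrank ℂ (P (k + E)) :=
    (Submodule.equivMapOfInjective _ hinjF _).finrank_eq.symm
  have r2 : finrank ℂ U2 = finrank ℂ (P (k + D)) :=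
    (Submodule.equivMapOfInjective _ hinjG _).finrank_eq.symm
  have r3 : finrank ℂ (U1 ⊓ U2 : Submodule ℂ A) ≤ finrank ℂ (P k) := by
    refine le_trans (Submodule.finrank_mono ?_) (Submodule.finrank_map_le (LinearMap.mulLeft ℂ (F * G)) (P k))
    rintro x ⟨⟨a, ha, rfl⟩, ⟨b, hb, hab⟩⟩
    simp only [LinearMap.mulLeft_apply] at hab ⊢
    have hdvd : G ∣ a := hc.symm.dvd_of_dvd_mul_left ⟨b, hab.symm⟩
    obtain ⟨c, rfl⟩ := hdvd
    refine ⟨c, ?_, by simp [mul_assoc]⟩
    by_cases hc0 : c = 0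
    · subst hc0; exact Submodule.zero_mem _
    · have h1 := mem_P.1 ha
      rw [totalDegree_mul_of_isDomain hG hc0] at h1
      exact mem_P.2 (by omega)
  have r4 := Submodule.finrank_sup_add_finrank_inf_eq U1 U2
  have hle : U1 ⊔ U2 ≤ P (k + D + E) := by
    refine sup_le ?_ ?_
    · rintro x ⟨a, ha, rfl⟩
      have := mem_P.1 ha
      exact mem_P.2 ((totalDegree_mul _ _).trans (by omega))
    · rintro x ⟨a, ha, rfl⟩
      have := mem_P.1 ha
      exact mem_P.2 ((totalDegree_mul _ _).trans (by omega))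
  have r5 := finrank_map_add_le _ _ hle π
  have htop : (P (k + D + E)).map π = ⊤ := by
    rw [eq_top_iff, ← hm0]
    refine Submodule.map_mono fun x hx => mem_P.2 ((mem_P.1 hx).trans (by omega))
  rw [htop, finrank_top, finrank_fintype_fun_eq_card, Fintype.card_coe, card_I] at r5
  have r6 : finrank ℂ ((U1 ⊔ U2).map π) ≤ Hc t K β + Hc t K α := by
    rw [Submodule.map_sup]
    refine (Submodule.finrank_add_le_finrank_add_finrank _ _).trans (add_le_add ?_ ?_)
    · rw [← Submodule.map_comp]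
      have := finrank_map_le_of_ker (P (k + E)) ((jet t K β).comp σ.toLinearMap)
        (π.comp (LinearMap.mulLeft ℂ F)) (by
          intro v hv
          have h1 := GE_of_jet_eq_zero ht (by linarith) hv
          have h2 := hFα.mul h1
          simp only [π, LinearMap.comp_apply, LinearMap.mulLeft_apply, AlgHom.toLinearMap_apply,
            map_mul]
          exact jet_eq_zero_of_GE h2)
      rwa [finrank_fintype_fun_eq_card, Fintype.card_coe, card_I] at this
    · rw [← Submodule.map_comp]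
      have := finrank_map_le_of_ker (P (k + D)) ((jet t K α).comp σ.toLinearMap)
        (π.comp (LinearMap.mulLeft ℂ G)) (by
          intro v hv
          have h1 := GE_of_jet_eq_zero ht (by linarith) hv
          have h2 := hGβ.mul h1
          rw [add_comm] at h2
          simp only [π, LinearMap.comp_apply, LinearMap.mulLeft_apply, AlgHom.toLinearMap_apply,
            map_mul]
          exact jet_eq_zero_of_GE h2)
      rwa [finrank_fintype_fun_eq_card, Fintype.card_coe, card_I] at this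
  have e1 := finrank_P k
  have e2 := finrank_P (k + D)
  have e3 := finrank_P (k + E)
  have e4 := finrank_P (k + D + E)
  have e5 : finrank ℂ (P (k + D + E)) + finrank ℂ (P k) =
      finrank ℂ (P (k + D)) + finrank ℂ (P (k + E)) + D * E := by nlinarith
  omega

/-- local Bezout inequality for a monomial valuation -/
theorem bezout {t : ℝ} (ht : 1 ≤ t) (σ : A →ₐ[ℂ] A) (hσ : Function.Surjective σ) {f g : A}
    (hf : f ≠ 0) (hg : g ≠ 0) (hc : IsRelPrime f g) {α β : ℝ} (hα : 0 ≤ α) (hβ : 0 ≤ β)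
    (hfα : GE 1 t α (σ f)) (hgβ : GE 1 t β (σ g)) {d n : ℕ} (hd : f.totalDegree ≤ d)
    (hn : g.totalDegree ≤ n) : α * β ≤ t * d * n := by
  have ht0 : 0 < t := by linarith
  have key : ∀ N : ℕ, (N : ℝ) ^ 2 * (α * β - t * d * n) ≤ N * ((α + β) * (t + 1)) + (t + 1) ^ 2 := by
    intro N
    have hN : (0 : ℝ) ≤ N := by positivity
    obtain ⟨K, hK⟩ := exists_nat_ge (N * α + N * β)
    have h1 := count ht σ hσ (pow_ne_zero N hf) (pow_ne_zero N hg) (hc.pow (m := N) (n := N))
      (mul_nonneg hN hα) (mul_nonneg hN hβ) (by rw [map_pow]; exact hfα.pow N)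
      (by rw [map_pow]; exact hgβ.pow N) K hK
    have h2 : (f ^ N).totalDegree * (g ^ N).totalDegree ≤ (N * d) * (N * n) :=
      Nat.mul_le_mul ((totalDegree_pow _ _).trans (Nat.mul_le_mul_left _ hd))
        ((totalDegree_pow _ _).trans (Nat.mul_le_mul_left _ hn))
    have h3 : (Hc t K (N * α + N * β) : ℝ) ≤ Hc t K (N * β) + Hc t K (N * α) + (N * d) * (N * n) := by
      exact_mod_cast h1.trans (Nat.add_le_add_left h2 _)
    have hK0 : (0 : ℝ) ≤ K := by positivity
    have h4 := le_Hc ht0 K (N * α + N * β) (by positivity) (by nlinarith)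
    have h5 := Hc_le ht0 K (N * α) (by positivity)
    have h6 := Hc_le ht0 K (N * β) (by positivity)
    have h7 := mul_le_mul_of_nonneg_left h3 (by positivity : (0 : ℝ) ≤ 2 * t)
    nlinarith
  by_contra hlt
  push Not at hlt
  set δ := α * β - t * d * n with hδ
  have hδ0 : 0 < δ := by linarith
  set B := (α + β) * (t + 1) + (t + 1) ^ 2 with hB
  obtain ⟨N, hN⟩ := exists_nat_gt (B / δ + 1)
  have hB0 : 0 ≤ B := by positivity
  have h1 : B / δ * δ = B := div_mul_cancel₀ _ hδ0.ne'
  have hq : 0 ≤ B / δ := by positivity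
  have hN1 : (1 : ℝ) < N := by linarith
  have h2 : B < N * δ := by nlinarith
  have h3 := key N
  have h4 : (t + 1) ^ 2 ≤ N * (t + 1) ^ 2 := by nlinarith [sq_nonneg (t + 1)]
  nlinarith

end Pool.Agent.H966Z.QM
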