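import Mathlib

set_option autoImplicit false

namespace Pool.Agent.H966Z.QM

/-- `VGMin t`: for a very general smooth germ `y = x * c(x)` (outside countably many
hypersurfaces `S k = 0` in the coefficients `c`), every nonzero form `f` of degree `d` has
quasimonomial valuation (weight `1` on `x`, weight `t` on `y - x * c(x)`) at most `d √t`.
This is the body of the frozen statement of the problem at the value `t`. -/
def VGMin (t : ℝ) : Prop :=
  ∃ S : ℕ → MvPolynomial ℕ ℂ, (∀ k, S k ≠ 0) ∧
    ∀ c : ℕ → ℂ, (∀ k, MvPolynomial.eval c (S k) ≠ 0) →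
      ∀ d : ℕ, ∀ f : MvPolynomial (Fin 3) ℂ, f.IsHomogeneous d → f ≠ 0 →
        ∃ i j : ℕ,
          PowerSeries.coeff i
              ((MvPolynomial.aeval
                  (![Polynomial.C PowerSeries.X,
                     Polynomial.C (PowerSeries.X * PowerSeries.mk c) + Polynomial.X,
                     1] : Fin 3 → Polynomial (PowerSeries ℂ)) f).coeff j) ≠ 0 ∧
          (i : ℝ) + t * (j : ℝ) ≤ (d : ℝ) * Real.sqrt t

end Pool.Agent.H966Z.QM
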