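import Pool.Agent.H966Z.QM.Wt
import Pool.Agent.H966Z.QM.Defs

set_option autoImplicit false

open MvPolynomial

namespace Pool.Agent.H966Z.QM

abbrev A3 := MvPolynomial (Fin 3) ℂ
abbrev PS := Polynomial (PowerSeries ℂ)

noncomputable def deh : A3 →ₐ[ℂ] A := aeval ![X 0, X 1, 1]

theorem deh_monomial (m : Fin 3 →₀ ℕ) (c : ℂ) :
    deh (monomial m c) = monomial (mo (m 0) (m 1)) c := by
  rw [deh, aeval_monomial, monomial_mo, Finsupp.prod_fintype _ _ (by simp), Fin.prod_univ_three]
  simp [mul_assoc]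

theorem hom_supp {d : ℕ} {f : A3} (hf : f.IsHomogeneous d) {m : Fin 3 →₀ ℕ} (hm : m ∈ f.support) :
    m 0 + m 1 + m 2 = d := by
  have h := hf (mem_support_iff.1 hm)
  rw [Finsupp.weight_apply, Finsupp.sum_fintype _ _ (by simp), Fin.sum_univ_three] at h
  simpa using h

theorem deh_eq (f : A3) : deh f = ∑ m ∈ f.support, monomial (mo (m 0) (m 1)) (coeff m f) := by
  conv_lhs => rw [f.as_sum]
  rw [map_sum]
  exact Finset.sum_congr rfl fun m _ => deh_monomial _ _

theorem deh_deg {d : ℕ} {f : A3} (hf : f.IsHomogeneous d) : (deh f).totalDegree ≤ d := by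
  rw [← GE_deg_iff, deh_eq]
  refine GE_sum _ _ fun m hm => (GE_monomial _ _).mono ?_
  rw [wt_mo]
  have h := hom_supp hf hm
  have : ((m 0 + m 1 : ℕ) : ℝ) ≤ d := by exact_mod_cast (by omega : m 0 + m 1 ≤ d)
  push_cast at this
  linarith

theorem deh_ne {d : ℕ} {f : A3} (hf : f.IsHomogeneous d) (h0 : f ≠ 0) : deh f ≠ 0 := by
  classical
  obtain ⟨m, hm⟩ := support_nonempty.2 h0
  intro h
  have := congrArg (coeff (mo (m 0) (m 1))) h
  rw [deh_eq, coeff_sum, Finset.sum_eq_single m] at this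
  · simp only [coeff_monomial, if_true, coeff_zero] at this
    exact mem_support_iff.1 hm this
  · intro m' hm' hne
    rw [coeff_monomial, if_neg]
    intro e
    obtain ⟨e0, e1⟩ := mo_inj e
    have h1 := hom_supp hf hm
    have h2 := hom_supp hf hm'
    apply hne
    ext k
    fin_cases k
    · exact e0
    · exact e1
    · show m' 2 = m 2
      omega
  · intro h; exact absurd hm h

theorem deh_surj {d : ℕ} {g : A} (hg : g.totalDegree ≤ d) :
    ∃ f : A3, f.IsHomogeneous d ∧ deh f = g := by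
  classical
  rw [← GE_deg_iff] at hg
  let μ : Mo → (Fin 3 →₀ ℕ) := fun m =>
    Finsupp.single 0 (m 0) + Finsupp.single 1 (m 1) + Finsupp.single 2 (d - m 0 - m 1)
  refine ⟨∑ m ∈ g.support, monomial (μ m) (coeff m g), ?_, ?_⟩
  · refine IsHomogeneous.sum _ _ _ fun m hm => isHomogeneous_monomial _ ?_
    have h := hg m hm
    unfold wt at h
    have h2 : ((m 0 + m 1 : ℕ) : ℝ) ≤ d := by push_cast; linarith
    have h3 : m 0 + m 1 ≤ d := by exact_mod_cast h2
    simp only [μ, map_add, Finsupp.degree_single]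
    omega
  · rw [map_sum]
    conv_rhs => rw [g.as_sum]
    refine Finset.sum_congr rfl fun m _ => ?_
    rw [deh_monomial]
    have e0 : μ m 0 = m 0 := by simp [μ]
    have e1 : μ m 1 = m 1 := by simp [μ]
    rw [e0, e1, mo_eta]

/-- expansion along a formal germ -/
noncomputable def ex (δ : PowerSeries ℂ) : A →ₐ[ℂ] PS :=
  aeval ![Polynomial.C PowerSeries.X, Polynomial.C δ + Polynomial.X]

theorem ex_monomial (δ : PowerSeries ℂ) (m : Mo) (c : ℂ) :
    ex δ (monomial m c) = Polynomial.C (PowerSeries.C c * PowerSeries.X ^ (m 0)) *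
      (Polynomial.X + Polynomial.C δ) ^ (m 1) := by
  rw [ex, aeval_monomial, Finsupp.prod_fintype _ _ (by simp), Fin.prod_univ_two]
  simp [Polynomial.algebraMap_apply, mul_assoc, add_comm]

theorem ex_eq (δ : PowerSeries ℂ) (g : A) (j : ℕ) : (ex δ g).coeff j =
    ∑ m ∈ g.support, PowerSeries.C (coeff m g) * PowerSeries.X ^ (m 0) *
      (δ ^ (m 1 - j) * ((m 1).choose j : PowerSeries ℂ)) := by
  conv_lhs => rw [g.as_sum]
  rw [map_sum, Polynomial.finset_sum_coeff]
  refine Finset.sum_congr rfl fun m _ => ?_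
  rw [ex_monomial, Polynomial.coeff_C_mul, Polynomial.coeff_X_add_C_pow]

theorem ex_zero_coeff (g : A) (i j : ℕ) :
    PowerSeries.coeff i ((ex 0 g).coeff j) = coeff (mo i j) g := by
  classical
  rw [ex_eq, map_sum, Finset.sum_eq_single (mo i j)]
  · simp [PowerSeries.coeff_X_pow]
  · intro m _ hne
    by_cases h1 : m 1 = j
    · have h0 : m 0 ≠ i := by
        intro h0; apply hne; rw [← mo_eta m, h0, h1]
      simp [h1, PowerSeries.coeff_X_pow, Ne.symm h0]
    · rcases lt_or_gt_of_ne h1 with h | h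
      · simp [Nat.choose_eq_zero_of_lt h]
      · rw [zero_pow (by omega)]; simp
  · intro h
    simp [notMem_support_iff.1 h]

theorem ex_vanish {δ : PowerSeries ℂ} {N : ℕ} (hδ : PowerSeries.X ^ N ∣ δ) {t l : ℝ}
    (hN : t ≤ N) {g : A} (hg : GT 1 t l g) {i j : ℕ} (hij : (i : ℝ) + t * j ≤ l) :
    PowerSeries.coeff i ((ex δ g).coeff j) = 0 := by
  rw [ex_eq, map_sum]
  refine Finset.sum_eq_zero fun m hm => ?_
  by_cases h : m 1 < j
  · simp [Nat.choose_eq_zero_of_lt h]
  · push Not at h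
    obtain ⟨r, hr⟩ := Nat.exists_eq_add_of_le h
    have hd : PowerSeries.X ^ (m 0 + N * r) ∣ PowerSeries.C (coeff m g) * PowerSeries.X ^ (m 0) *
        (δ ^ (m 1 - j) * ((m 1).choose j : PowerSeries ℂ)) := by
      rw [pow_add, pow_mul]
      refine mul_dvd_mul (Dvd.intro_left _ rfl) (Dvd.dvd.mul_right ?_ _)
      rw [show m 1 - j = r by omega]
      exact pow_dvd_pow_of_dvd hδ r
    refine PowerSeries.X_pow_dvd_iff.1 hd i ?_
    have h1 := hg m hm
    unfold wt at h1
    rw [hr] at h1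
    push_cast at h1
    have h2 : t * r ≤ N * r := mul_le_mul_of_nonneg_right hN (by positivity)
    have h3 : (i : ℝ) < ((m 0 + N * r : ℕ) : ℝ) := by push_cast; nlinarith
    exact_mod_cast h3

theorem ex_sh_deh (δ : PowerSeries ℂ) (p : Polynomial ℂ) (f : A3) :
    ex δ (sh p (deh f)) = MvPolynomial.aeval
      (![Polynomial.C PowerSeries.X, Polynomial.C ((p : PowerSeries ℂ) + δ) + Polynomial.X, 1] :
        Fin 3 → PS) f := by
  have hp : ex δ (Polynomial.aeval (X 0 : A) p) = Polynomial.C (p : PowerSeries ℂ) := by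
    rw [← Polynomial.aeval_algHom_apply]
    have e : ex δ (X 0) = Polynomial.C PowerSeries.X := by simp [ex]
    rw [e]
    induction p using Polynomial.induction_on' with
    | add p q hp hq => rw [map_add, hp, hq, Polynomial.coe_add, map_add]
    | monomial n c =>
      rw [← Polynomial.C_mul_X_pow_eq_monomial]
      simp [Polynomial.algebraMap_apply]
  have : ((ex δ).comp (sh p)).comp deh = MvPolynomial.aeval
      (![Polynomial.C PowerSeries.X, Polynomial.C ((p : PowerSeries ℂ) + δ) + Polynomial.X, 1] :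
        Fin 3 → PS) := by
    apply MvPolynomial.algHom_ext
    intro i
    fin_cases i
    · simp [deh, ex]
    · simp only [deh, AlgHom.comp_apply, aeval_X, Fin.mk_one, Matrix.cons_val_one,
        Matrix.cons_val_zero, sh_X1, map_add, hp]
      simp [ex, add_assoc]
    · simp [deh]
  exact congrArg (fun φ : A3 →ₐ[ℂ] PS => φ f) this

theorem semicont {V : Type*} [AddCommGroup V] [Module ℂ V] [FiniteDimensional ℂ V]
    {J : Type*} [Fintype J] (Φ : V →ₗ[ℂ] (J → MvPolynomial ℕ ℂ)) (c0 : ℕ → ℂ)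
    (h : ∀ v, (∀ j, eval c0 (Φ v j) = 0) → v = 0) :
    ∃ S : MvPolynomial ℕ ℂ, S ≠ 0 ∧
      ∀ c, eval c S ≠ 0 → ∀ v, (∀ j, eval c (Φ v j) = 0) → v = 0 := by
  classical
  let b := Module.finBasis ℂ V
  let L : (ℕ → ℂ) → V →ₗ[ℂ] (J → ℂ) := fun c =>
    LinearMap.pi fun j => (aeval c : MvPolynomial ℕ ℂ →ₐ[ℂ] ℂ).toLinearMap ∘ₗ LinearMap.proj j ∘ₗ Φ
  have hL : ∀ c v j, L c v j = eval c (Φ v j) := fun c v j => by
    simp [L, MvPolynomial.coe_aeval_eq_eval]
  obtain ⟨B, hB⟩ := (L c0).exists_leftInverse_of_injective (by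
    rw [LinearMap.ker_eq_bot']
    intro v hv
    exact h v fun j => by rw [← hL, hv]; rfl)
  let Bm := LinearMap.toMatrix (Pi.basisFun ℂ J) b B
  let N : Matrix J (Fin (Module.finrank ℂ V)) (MvPolynomial ℕ ℂ) := fun j l => Φ (b l) j
  let Mx : Matrix (Fin (Module.finrank ℂ V)) (Fin (Module.finrank ℂ V)) (MvPolynomial ℕ ℂ) :=
    Matrix.of fun k l => ∑ j, C (Bm k j) * N j l
  have key : ∀ c, eval c Mx.det = LinearMap.det (B ∘ₗ L c) := by
    intro c
    rw [RingHom.map_det, ← LinearMap.det_toMatrix b, LinearMap.toMatrix_comp b (Pi.basisFun ℂ J) b]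
    congr 1
    ext k l
    rw [RingHom.mapMatrix_apply, Matrix.map_apply, Matrix.mul_apply]
    simp only [Mx, Matrix.of_apply, map_sum]
    refine Finset.sum_congr rfl fun j _ => ?_
    simp [Bm, N, LinearMap.toMatrix_apply, hL]
  refine ⟨Mx.det, ?_, ?_⟩
  · intro h0
    have := key c0
    rw [h0, hB] at this
    simp at this
  · intro c hc v hv
    rw [key] at hc
    have hu : IsUnit (B ∘ₗ L c) := (LinearMap.isUnit_iff_isUnit_det _).2 (isUnit_iff_ne_zero.2 hc)
    have hk := (LinearMap.isUnit_iff_ker_eq_bot _).1 hu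
    rw [LinearMap.ker_eq_bot'] at hk
    apply hk
    have : L c v = 0 := by funext j; rw [hL]; exact hv j
    simp [this]

abbrev R0 := MvPolynomial ℕ ℂ

noncomputable def univEx : A3 →ₐ[ℂ] Polynomial (PowerSeries R0) :=
  aeval ![Polynomial.C PowerSeries.X,
    Polynomial.C (PowerSeries.X * PowerSeries.mk fun n => (X n : R0)) + Polynomial.X, 1]

theorem eval_univEx (c : ℕ → ℂ) (f : A3) (i j : ℕ) :
    eval c (PowerSeries.coeff i ((univEx f).coeff j)) = PowerSeries.coeff i
      ((MvPolynomial.aeval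
        (![Polynomial.C PowerSeries.X,
          Polynomial.C (PowerSeries.X * PowerSeries.mk c) + Polynomial.X, 1] : Fin 3 → PS) f).coeff j) := by
  have : (Polynomial.mapAlgHom (PowerSeries.mapAlgHom (aeval c : R0 →ₐ[ℂ] ℂ))).comp univEx =
      MvPolynomial.aeval
        (![Polynomial.C PowerSeries.X,
          Polynomial.C (PowerSeries.X * PowerSeries.mk c) + Polynomial.X, 1] : Fin 3 → PS) := by
    apply MvPolynomial.algHom_ext
    intro i
    have e1 : PowerSeries.mapAlgHom (aeval c : R0 →ₐ[ℂ] ℂ) PowerSeries.X = PowerSeries.X := by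
      rw [PowerSeries.mapAlgHom_apply]; simp
    have e2 : PowerSeries.mapAlgHom (aeval c : R0 →ₐ[ℂ] ℂ) (PowerSeries.mk fun n => (X n : R0)) =
        PowerSeries.mk c := by
      rw [PowerSeries.mapAlgHom_apply]; ext n; simp
    fin_cases i
    · simp [univEx, e1]
    · simp [univEx, e1, e2]
    · simp [univEx]
  rw [← this]
  simp only [AlgHom.comp_apply, Polynomial.coe_mapAlgHom, Polynomial.coeff_map]
  rw [RingHom.coe_coe, PowerSeries.mapAlgHom_apply, PowerSeries.coeff_map]
  simp [MvPolynomial.coe_aeval_eq_eval]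

/-- semicontinuity: one minimal polynomial germ gives minimality for the very general germ -/
theorem VGMin_of_PMin {p : Polynomial ℂ} (hp : p.coeff 0 = 0) {t : ℝ} (ht : 1 ≤ t)
    (h : PMin p t) : VGMin t := by
  classical
  let c0 : ℕ → ℂ := fun n => p.coeff (n + 1)
  have hc0 : PowerSeries.X * PowerSeries.mk c0 = (p : PowerSeries ℂ) + 0 := by
    rw [add_zero]
    ext n
    cases n with
    | zero => simp [hp]
    | succ n => simp [c0, PowerSeries.coeff_succ_X_mul]
  have main : ∀ d : ℕ, ∃ S : R0, S ≠ 0 ∧ ∀ c : ℕ → ℂ, eval c S ≠ 0 →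
      ∀ f : A3, f.IsHomogeneous d → f ≠ 0 → ∃ i j : ℕ, PowerSeries.coeff i
        ((MvPolynomial.aeval
          (![Polynomial.C PowerSeries.X,
            Polynomial.C (PowerSeries.X * PowerSeries.mk c) + Polynomial.X, 1] :
              Fin 3 → PS) f).coeff j) ≠ 0 ∧ (i : ℝ) + t * (j : ℝ) ≤ (d : ℝ) * Real.sqrt t := by
    intro d
    obtain ⟨K, hK⟩ := exists_nat_gt ((d : ℝ) * Real.sqrt t)
    let J : Finset (ℕ × ℕ) := (Finset.range K ×ˢ Finset.range K).filter
      fun q => (q.1 : ℝ) + t * (q.2 : ℝ) ≤ (d : ℝ) * Real.sqrt t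
    haveI : FiniteDimensional ℂ (homogeneousSubmodule (Fin 3) ℂ d) :=
      Module.Finite.iff_fg.2 (homogeneousSubmodule_fg (Fin 3) ℂ d)
    let Φ : homogeneousSubmodule (Fin 3) ℂ d →ₗ[ℂ] (J → R0) :=
      LinearMap.pi fun q => ((PowerSeries.coeff q.1.1).restrictScalars ℂ) ∘ₗ
        ((Polynomial.lcoeff (PowerSeries R0) q.1.2).restrictScalars ℂ) ∘ₗ
        univEx.toLinearMap ∘ₗ (Submodule.subtype _)
    have hΦ : ∀ v q, Φ v q = PowerSeries.coeff q.1.1 ((univEx v.1).coeff q.1.2) := fun v q => rfl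
    obtain ⟨S, hS, hS'⟩ := semicont Φ c0 (by
      intro v hv
      by_contra hne
      have hv0 : v.1 ≠ 0 := fun e => hne (Subtype.ext e)
      apply h d (deh v.1) (deh_ne v.2 hv0) (deh_deg v.2)
      intro m hm
      by_contra hle
      push Not at hle
      unfold wt at hle
      have h0 : (0 : ℝ) ≤ m 0 := by positivity
      have h1 : (0 : ℝ) ≤ m 1 := by positivity
      have hq : (m 0, m 1) ∈ J := by
        simp only [J, Finset.mem_filter, Finset.mem_product, Finset.mem_range]
        refine ⟨⟨?_, ?_⟩, by linarith⟩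
        · have : (m 0 : ℝ) < K := by nlinarith
          exact_mod_cast this
        · have : (m 1 : ℝ) < K := by nlinarith
          exact_mod_cast this
      have := hv ⟨_, hq⟩
      rw [hΦ, eval_univEx, hc0, ← ex_sh_deh, ex_zero_coeff, mo_eta] at this
      exact mem_support_iff.1 hm this)
    refine ⟨S, hS, fun c hc f hf hf0 => ?_⟩
    by_contra hno
    push Not at hno
    have := hS' c hc ⟨f, hf⟩ (by
      intro q
      rw [hΦ, eval_univEx]
      by_contra hne
      have h1 := hno _ _ hne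
      have h2 := q.2
      simp only [J, Finset.mem_filter] at h2
      linarith [h2.2])
    exact hf0 (congrArg Subtype.val this)
  choose S hS hS' using main
  exact ⟨S, hS, fun c hc d f hf hf0 => hS' d c (hc d) f hf hf0⟩

theorem exists_avoid (S : ℕ → R0) (hS : ∀ k, S k ≠ 0) : ∃ c : ℕ → ℂ, ∀ k, eval c (S k) ≠ 0 := by
  classical
  have hd : Dense (⋂ k, {c : ℕ → ℂ | eval c (S k) ≠ 0}) := by
    refine dense_iInter_of_isOpen_nat (fun k => ?_) (fun k => ?_)
    · exact isOpen_ne_fun (MvPolynomial.continuous_eval _) continuous_const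
    · rw [dense_iff_inter_open]
      rintro U hU ⟨x, hx⟩
      obtain ⟨I, u, hu, hsub⟩ := isOpen_pi_iff.1 hU x hx
      by_contra hemp
      apply hS k
      refine funext_set (fun a => if a ∈ I then u a else Set.univ) (fun a => ?_) ?_
      · by_cases ha : a ∈ I
        · simp only [ha, if_true]
          exact infinite_of_mem_nhds (x a) ((hu a ha).1.mem_nhds (hu a ha).2)
        · simp only [ha, if_false]; exact Set.infinite_univ
      · intro y hy
        rw [map_zero]
        by_contra hne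
        apply hemp
        refine ⟨y, hsub fun a ha => ?_, hne⟩
        have := hy a (Set.mem_univ a)
        simpa [Finset.mem_coe.1 ha] using this
  obtain ⟨c, hc⟩ := hd.nonempty
  exact ⟨c, fun k => Set.mem_iInter.1 hc k⟩

theorem PMin_of_VGMin {t : ℝ} (h : VGMin t) : ∃ p : Polynomial ℂ, p.coeff 0 = 0 ∧ PMin p t := by
  obtain ⟨S, hS, hS'⟩ := h
  obtain ⟨c, hc⟩ := exists_avoid S hS
  obtain ⟨N, hN⟩ := exists_nat_ge t
  set ξ := PowerSeries.X * PowerSeries.mk c with hξ
  refine ⟨PowerSeries.trunc N ξ, ?_, ?_⟩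
  · rw [PowerSeries.coeff_trunc]
    split_ifs
    · simp [hξ]
    · rfl
  · intro d g hg0 hgd hGT
    obtain ⟨f, hf, rfl⟩ := deh_surj hgd
    have hf0 : f ≠ 0 := by rintro rfl; exact hg0 (map_zero _)
    obtain ⟨i, j, hne, hle⟩ := hS' c hc d f hf hf0
    apply hne
    have e : ξ = ((PowerSeries.trunc N ξ : Polynomial ℂ) : PowerSeries ℂ) +
        (ξ - (PowerSeries.trunc N ξ : Polynomial ℂ)) := by ring
    rw [← hξ, e, ← ex_sh_deh]
    refine ex_vanish (N := N) ?_ hN ?_ hle
    · rw [PowerSeries.X_pow_dvd_iff]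
      intro m hm
      simp [PowerSeries.coeff_trunc, hm]
    · exact hGT

end Pool.Agent.H966Z.QM
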