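import Pool.Agent.H966Z.QM.Bezout
import Pool.Agent.H966Z.QM.Link

set_option autoImplicit false

open MvPolynomial

namespace Pool.Agent.H966Z.QM

theorem GT.exists_ge' {w0 w1 l : ℝ} {g : A} (h : GT w0 w1 l g) : ∃ L, l < L ∧ GE w0 w1 L g := by
  by_cases h0 : g.support.Nonempty
  · obtain ⟨m, hm, hmin⟩ := g.support.exists_min_image (wt w0 w1) h0
    exact ⟨_, h m hm, hmin⟩
  · exact ⟨l + 1, by linarith, fun m hm => absurd ⟨m, hm⟩ h0⟩

/-- an irreducible curve of degree `n` and value exactly `n τ` forces minimality -/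
theorem PMin_of_curve {g : A} (hg : Irreducible g) {n : ℕ} (hn : 0 < n) (hdeg : g.totalDegree = n)
    {q : Polynomial ℂ} {τ : ℝ} (hτ : 1 ≤ τ) {M : Mo} {c : ℂ} (hc : c ≠ 0)
    (hini : Ini 1 (τ ^ 2) M c (sh q g)) (hw : wt 1 (τ ^ 2) M = n * τ) : PMin q (τ ^ 2) := by
  intro d
  rw [Real.sqrt_sq (by linarith)]
  induction d using Nat.strong_induction_on with
  | _ d ih =>
    intro f hf0 hfd hGT
    by_cases hdvd : g ∣ f
    · obtain ⟨f', rfl⟩ := hdvd
      have hf' : f' ≠ 0 := right_ne_zero_of_mul hf0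
      rw [totalDegree_mul_of_isDomain hg.ne_zero hf', hdeg] at hfd
      rw [map_mul, mul_comm (sh q g)] at hGT
      have h1 := GT.cancel hc hini hGT
      refine ih (d - n) (by omega) f' hf' (by omega) ?_
      convert h1 using 1
      rw [hw, Nat.cast_sub (by omega)]; ring
    · obtain ⟨L, hL, hGE⟩ := hGT.exists_ge'
      have hd0 : (0 : ℝ) ≤ d * τ := by positivity
      have hn' : (0 : ℝ) < n := by exact_mod_cast hn
      have h2 := bezout (t := τ ^ 2) (by nlinarith) (sh q) (sh_surj q) hf0 hg.ne_zero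
        (hg.isRelPrime_iff_not_dvd.2 hdvd).symm (α := L) (β := n * τ) (by linarith) (by positivity)
        hGE (hw ▸ hini.ge) hfd hdeg.le
      have h3 : 0 < (L - d * τ) * (n * τ) := mul_pos (by linarith) (by positivity)
      nlinarith

theorem GE_aeval {w0 w1 : ℝ} (φ : A →ₐ[ℂ] A) (h0 : GE w0 w1 w0 (φ (X 0))) (h1 : GE w0 w1 w1 (φ (X 1)))
    (m : Mo) (c : ℂ) : GE w0 w1 (wt w0 w1 m) (φ (monomial m c)) := by
  rw [← mo_eta m, monomial_mo, wt_mo, map_mul, map_mul, map_pow, map_pow,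
    ← MvPolynomial.algebraMap_eq, AlgHom.commutes, MvPolynomial.algebraMap_eq, mul_assoc,
    mul_comm w0, mul_comm w1]
  exact ((h0.pow _).mul (h1.pow _)).C_mul c

theorem GT.map {w0 w1 l : ℝ} (φ : A →ₐ[ℂ] A) (h0 : GE w0 w1 w0 (φ (X 0)))
    (h1 : GE w0 w1 w1 (φ (X 1))) {g : A} (h : GT w0 w1 l g) : GT w0 w1 l (φ g) := by
  rw [g.as_sum, map_sum]
  exact GT_sum _ _ fun m hm => (GE_aeval φ h0 h1 m _).gt (h m hm)

theorem sh_add (p q : Polynomial ℂ) (g : A) : sh q (sh p g) = sh (p + q) g := by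
  have : (sh q).comp (sh p) = sh (p + q) := by
    apply MvPolynomial.algHom_ext
    intro i
    fin_cases i
    · simp
    · simp [sh_aeval, add_assoc]
  exact congrArg (fun φ : A →ₐ[ℂ] A => φ g) this

theorem GT_sh {S : ℕ} (μ : ℂ) {l : ℝ} {g : A} (h : GT 1 S l g) :
    GT 1 S l (sh (Polynomial.C μ * Polynomial.X ^ S) g) := by
  refine h.map _ (by simpa using GE_X0) ?_
  rw [sh_X1]
  refine GE.add ?_ GE_X1
  simpa using GE_aeval_of_dvd (w0 := 1) (w1 := S) zero_le_one (by positivity)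
    (Dvd.intro_left (Polynomial.C μ) rfl : Polynomial.X ^ S ∣ Polynomial.C μ * Polynomial.X ^ S)

theorem sh_mono (μ : ℂ) (S a : ℕ) (c : ℂ) :
    sh (Polynomial.C μ * Polynomial.X ^ S) (monomial (mo a 1) c) =
      monomial (mo a 1) c + monomial (mo (a + S) 0) (c * μ) := by
  simp only [monomial_mo, map_mul, map_pow, sh_X0, sh_X1, Polynomial.aeval_C, Polynomial.aeval_X,
    MvPolynomial.algebraMap_eq]
  rw [← MvPolynomial.algebraMap_eq, AlgHom.commutes]
  ring

theorem sh_mono0 (p : Polynomial ℂ) (b : ℕ) (c : ℂ) :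
    sh p (monomial (mo b 0) c) = monomial (mo b 0) c := by
  simp only [monomial_mo, map_mul, map_pow, sh_X0, pow_zero, mul_one]
  rw [← MvPolynomial.algebraMap_eq, AlgHom.commutes]

/-- one step of Newton's algorithm -/
theorem hensel_step {g : A} {a : ℕ} {c : ℂ} (hc : c ≠ 0) {s : ℝ} {S : ℕ} (hS : s < S)
    (hS' : (S : ℝ) ≤ s + 1) (hS0 : 0 < S) {p : Polynomial ℂ} (hp : p.coeff 0 = 0)
    (h : Ini 1 s (mo a 1) c (sh p g)) :
    ∃ p' : Polynomial ℂ, p'.coeff 0 = 0 ∧ Ini 1 S (mo a 1) c (sh p' g) := by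
  classical
  set R := sh p g - monomial (mo a 1) c with hR
  set lam := coeff (mo (a + S) 0) R with hlam
  have hR' : GT 1 S (a + S) (R - monomial (mo (a + S) 0) lam) := by
    intro m hm
    have hne : m ≠ mo (a + S) 0 := by
      rintro rfl
      apply mem_support_iff.1 hm
      simp [hlam]
    have hmR : m ∈ R.support := by
      have := mem_support_iff.1 hm
      rw [coeff_sub, coeff_monomial, if_neg hne.symm, sub_zero] at this
      exact mem_support_iff.2 this
    have h1 := h m hmR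
    rw [wt_mo] at h1
    unfold wt at h1 ⊢
    by_cases h0 : m 1 = 0
    · have h2 : m 0 ≠ a + S := by
        intro e; apply hne; rw [← mo_eta m, e, h0]
      rw [h0] at h1 ⊢
      have h3 : ((a + S : ℕ) : ℝ) < ((m 0 + 1 : ℕ) : ℝ) := by push_cast at h1 ⊢; linarith
      have h4 : a + S < m 0 + 1 := by exact_mod_cast h3
      have h5 : ((a + S : ℕ) : ℝ) < ((m 0 : ℕ) : ℝ) := by exact_mod_cast (by omega : a + S < m 0)
      push_cast at h5 ⊢; linarith
    · have h2 : (1 : ℝ) ≤ m 1 := by exact_mod_cast Nat.one_le_iff_ne_zero.2 h0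
      push_cast at h1
      nlinarith
  refine ⟨p + Polynomial.C (-lam / c) * Polynomial.X ^ S, ?_, ?_⟩
  · simp [hp, Polynomial.coeff_X_pow, hS0.ne]
  · have h1 := GT_sh (-lam / c) hR'
    unfold Ini
    rw [wt_mo]
    convert h1 using 1
    · simp
    · rw [hR, map_sub, map_sub, sh_add, sh_mono, sh_mono0]
      have : c * (-lam / c) = -lam := by field_simp
      rw [this, map_neg]; ring

theorem hensel {g : A} {a : ℕ} {c : ℂ} (hc : c ≠ 0) {s : ℝ} (hs : 0 ≤ s) {p : Polynomial ℂ}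
    (hp : p.coeff 0 = 0) (h : Ini 1 s (mo a 1) c (sh p g)) (T : ℝ) :
    ∃ S : ℕ, T ≤ S ∧ ∃ p' : Polynomial ℂ, p'.coeff 0 = 0 ∧ Ini 1 S (mo a 1) c (sh p' g) := by
  have key : ∀ k : ℕ, ∃ p' : Polynomial ℂ, p'.coeff 0 = 0 ∧
      Ini 1 ((⌊s⌋₊ + 1 + k : ℕ) : ℝ) (mo a 1) c (sh p' g) := by
    intro k
    induction k with
    | zero =>
      refine hensel_step hc ?_ ?_ (by omega) hp h
      · push_cast; simpa using Nat.lt_floor_add_one s
      · push_cast; linarith [Nat.floor_le hs]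
    | succ k ih =>
      obtain ⟨p', h1, h2⟩ := ih
      refine hensel_step hc ?_ ?_ (by omega) h1 h2
      · push_cast; linarith
      · push_cast; linarith
  obtain ⟨k, hk⟩ := exists_nat_ge T
  refine ⟨_, ?_, key k⟩
  push_cast
  have : (0 : ℝ) ≤ ⌊s⌋₊ := by positivity
  linarith

theorem Ini.lower {G : A} {a : ℕ} {c : ℂ} {S t : ℝ} (h : Ini 1 S (mo a 1) c G) (ht : t ≤ S)
    (ha : (a : ℝ) < t) : Ini 1 t (mo a 1) c G := by
  intro m hm
  have h1 := h m hm
  rw [wt_mo] at h1 ⊢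
  unfold wt at h1 ⊢
  have h0 : (0 : ℝ) ≤ m 0 := by positivity
  have ha0 : (0 : ℝ) ≤ a := by positivity
  push_cast at h1 ⊢
  rcases Nat.lt_trichotomy (m 1) 1 with h2 | h2 | h2
  · have : m 1 = 0 := by omega
    rw [this] at h1 ⊢; push_cast at h1 ⊢; linarith
  · rw [h2] at h1 ⊢; push_cast at h1 ⊢; linarith
  · have : (2 : ℝ) ≤ m 1 := by exact_mod_cast h2
    nlinarith

theorem GT.raise {l t t' : ℝ} {g : A} (h : GT 1 t l g) (ht : t ≤ t') : GT 1 t' l g := by
  intro m hm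
  have := h m hm
  unfold wt at this ⊢
  have h1 : (0 : ℝ) ≤ m 1 := by positivity
  nlinarith

/-- the data of an irreducible curve of degree `n` with a smooth branch through the origin
meeting the other branches with multiplicity `a` -/
def Good (n a : ℕ) : Prop :=
  ∃ (g : A) (p : Polynomial ℂ) (s : ℝ) (c : ℂ), Irreducible g ∧ g.totalDegree = n ∧
    p.coeff 0 = 0 ∧ 0 ≤ s ∧ c ≠ 0 ∧ Ini 1 s (mo a 1) c (sh p g)

theorem VGMin_irr {n a : ℕ} (hn : 2 ≤ n) (hG : Good n a) {τ : ℝ} (h1 : (n : ℝ) < 2 * τ)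
    (h2 : τ ^ 2 + a = n * τ) : VGMin (τ ^ 2) := by
  obtain ⟨g, p, s, c, hg, hdeg, hp, hs, hc, hini⟩ := hG
  have hn' : (2 : ℝ) ≤ n := by exact_mod_cast hn
  have hτ : 1 ≤ τ := by linarith
  obtain ⟨S, hS, p', hp', hini'⟩ := hensel hc hs hp hini (τ ^ 2)
  refine VGMin_of_PMin hp' (by nlinarith) ?_
  refine PMin_of_curve hg (by omega) hdeg hτ hc (hini'.lower hS (by nlinarith)) ?_
  rw [wt_mo]; push_cast; linarith

theorem VGMin_rat {n a : ℕ} (hn : 2 ≤ n) (hG : Good n a) (ha : 4 * a < n ^ 2) {τ : ℝ}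
    (h1 : (n : ℝ) < 2 * τ) (h2 : n * τ < τ ^ 2 + a) {β : ℕ} (hβ : n * τ = β) : VGMin (τ ^ 2) := by
  obtain ⟨g, p, s, c, hg, hdeg, hp, hs, hc, hini⟩ := hG
  have hn' : (2 : ℝ) ≤ n := by exact_mod_cast hn
  have hτ : 1 ≤ τ := by linarith
  have ha' : (4 : ℝ) * a < n ^ 2 := by exact_mod_cast ha
  have hβa : ((2 * a : ℕ) : ℝ) < β := by push_cast; nlinarith
  have hβa' : 2 * a < β := by exact_mod_cast hβa
  obtain ⟨γ, rfl⟩ : ∃ γ, β = a + γ := ⟨β - a, by omega⟩
  have hγ : (a : ℝ) < γ := by exact_mod_cast (by omega : a < γ)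
  push_cast at hβ
  obtain ⟨S, hS, p', hp', hini'⟩ := hensel hc hs hp hini γ
  have h3 := GT_sh 1 (hini'.lower hS hγ)
  rw [map_sub, sh_add, sh_mono] at h3
  refine VGMin_of_PMin (p := p' + Polynomial.C 1 * Polynomial.X ^ γ) ?_ (by nlinarith) ?_
  · have : γ ≠ 0 := by omega
    simp [hp', Polynomial.coeff_X_pow, this.symm]
  refine PMin_of_curve hg (by omega) hdeg hτ hc (M := mo (a + γ) 0) ?_ ?_
  · have h4 : GT 1 (τ ^ 2) (wt 1 (τ ^ 2) (mo (a + γ) 0)) (monomial (mo a 1) c) := by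
      refine (GE_monomial _ _).gt ?_
      rw [wt_mo, wt_mo]; push_cast; linarith
    have h5 := (h3.raise (t' := τ ^ 2) (by linarith)).mono
      (l' := wt 1 (τ ^ 2) (mo (a + γ) 0)) (by rw [wt_mo, wt_mo]; push_cast; linarith)
    have := h5.add h4
    unfold Ini
    convert this using 1
    rw [mul_one]; ring
  · rw [wt_mo]; push_cast; linarith

/-- Eisenstein's criterion along the line `x = 1` -/
theorem irreducible_eis {n : ℕ} (hn : 1 ≤ n) {h : A} (hd : h.totalDegree ≤ n - 1)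
    (h10 : eval ![1, 0] h ≠ 0) : Irreducible (X 1 ^ n + (1 - X 0) * h : A) := by
  let φ := (Polynomial.Bivariate.equivMvPolynomial ℂ).symm
  rw [← MulEquiv.irreducible_iff φ.toMulEquiv]
  have hH : (φ h).degree < n := by
    rw [h.as_sum, map_sum, ← Polynomial.mem_degreeLT]
    refine Submodule.sum_mem _ fun m hm => ?_
    rw [Polynomial.mem_degreeLT]
    have h1 := (GE_deg_iff h _).2 hd m hm
    unfold wt at h1
    have h2 : ((m 0 + m 1 : ℕ) : ℝ) ≤ ((n - 1 : ℕ) : ℝ) := by push_cast at h1 ⊢; linarith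
    have h3 : m 0 + m 1 ≤ n - 1 := by exact_mod_cast h2
    have e : φ (monomial m (coeff m h)) =
        Polynomial.C (Polynomial.C (coeff m h) * Polynomial.X ^ (m 0)) * Polynomial.X ^ (m 1) := by
      conv_lhs => rw [← mo_eta m]
      rw [monomial_mo]
      simp [φ, mo_eta]
    rw [e]
    refine lt_of_le_of_lt (Polynomial.degree_C_mul_X_pow_le _ _) ?_
    exact_mod_cast (by omega : m 1 < n)
  have hev : Polynomial.eval 1 ((φ h).coeff 0) = eval ![1, 0] h := by
    have : ((Polynomial.evalRingHom (1 : ℂ)).comp (Polynomial.constantCoeff)).comp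
        (φ : A →+* Polynomial (Polynomial ℂ)) = eval ![1, 0] := by
      apply MvPolynomial.ringHom_ext
      · intro r; simp [φ]
      · intro i; fin_cases i <;> simp [φ]
    exact congrArg (fun ψ : A →+* ℂ => ψ h) this
  have e : φ.toMulEquiv (X 1 ^ n + (1 - X 0) * h) =
      Polynomial.X ^ n + Polynomial.C (1 - Polynomial.X) * φ h := by
    show φ _ = _
    simp [φ]
  rw [e]
  have hd2 : (Polynomial.C (1 - Polynomial.X) * φ h).degree < (n : WithBot ℕ) := by
    rw [← Polynomial.smul_eq_C_mul]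
    exact lt_of_le_of_lt (Polynomial.degree_smul_le _ _) hH
  have hm : (Polynomial.X ^ n + Polynomial.C (1 - Polynomial.X) * φ h).Monic :=
    Polynomial.monic_X_pow_add hd2
  have hdeg : (Polynomial.X ^ n + Polynomial.C (1 - Polynomial.X) * φ h).degree =
      (n : WithBot ℕ) := by
    rw [Polynomial.degree_add_eq_left_of_degree_lt (by rwa [Polynomial.degree_X_pow]),
      Polynomial.degree_X_pow]
  have hpr : Prime (Polynomial.X - Polynomial.C (1 : ℂ)) := Polynomial.prime_X_sub_C 1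
  have hP : (Ideal.span {Polynomial.X - Polynomial.C (1 : ℂ)}).IsPrime :=
    (Ideal.span_singleton_prime hpr.ne_zero).2 hpr
  refine Polynomial.irreducible_of_eisenstein_criterion hP ?_ ?_ ?_ ?_ hm.isPrimitive
  · rw [hm.leadingCoeff]
    exact (Ideal.ne_top_iff_one _).1 hP.ne_top
  · intro k hk
    rw [hdeg] at hk
    have hk' : k < n := by exact_mod_cast hk
    rw [Polynomial.coeff_add, Polynomial.coeff_X_pow, if_neg hk'.ne, zero_add,
      Polynomial.coeff_C_mul, Ideal.mem_span_singleton]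
    exact Dvd.dvd.mul_right ⟨-1, by simp⟩ _
  · rw [hdeg]; exact_mod_cast hn
  · rw [Polynomial.coeff_add, Polynomial.coeff_X_pow, if_neg (by omega), zero_add,
      Polynomial.coeff_C_mul, Ideal.span_singleton_pow, Ideal.mem_span_singleton]
    rintro ⟨r, hr⟩
    apply h10
    have h1 : (φ h).coeff 0 = -((Polynomial.X - Polynomial.C 1) * r) := by
      apply mul_left_cancel₀ hpr.ne_zero
      have : (1 - Polynomial.X : Polynomial ℂ) = -(Polynomial.X - Polynomial.C 1) := by simp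
      rw [this] at hr
      linear_combination -hr
    rw [← hev, h1]
    simp

theorem deg_eis {n : ℕ} (hn : 1 ≤ n) {h : A} (hd : h.totalDegree ≤ n - 1) :
    (X 1 ^ n + (1 - X 0) * h : A).totalDegree = n := by
  classical
  have hd' := (GE_deg_iff h _).2 hd
  apply le_antisymm
  · rw [← GE_deg_iff]
    refine GE.add (by simpa using (GE_X1 (w0 := -1) (w1 := -1)).pow n) ?_
    have := ((GE_one (w0 := -1) (w1 := -1)).mono (by norm_num : (-1 : ℝ) ≤ 0)).sub GE_X0 |>.mul hd'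
    convert this using 1
    rw [Nat.cast_sub hn]; push_cast; ring
  · have hc : coeff (mo 0 n) (X 1 ^ n + (1 - X 0) * h : A) = 1 := by
      have h1 : coeff (mo 0 n) h = 0 := by
        by_contra hne
        have := hd' _ (mem_support_iff.2 hne)
        rw [wt_mo, Nat.cast_sub hn] at this
        push_cast at this; linarith
      have h2 : (X 1 ^ n : A) = monomial (mo 0 n) 1 := by rw [monomial_mo]; simp
      rw [sub_mul, one_mul, coeff_add, coeff_sub, h1, coeff_X_mul', h2]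
      simp
    have := le_totalDegree (mem_support_iff.2 (by rw [hc]; exact one_ne_zero))
    rw [Finsupp.sum_fintype _ _ (by simp)] at this
    simpa using this

theorem Ini_one_sub {w1 : ℝ} : Ini 1 w1 (mo 0 0) 1 (1 - X 0 : A) := by
  have h1 := (Ini_X0_pow (w0 := 1) (w1 := w1) 0).add_gt (r := -X 0)
    ((GE_X0.gt (by rw [wt_mo]; simp)).neg)
  simpa [sub_eq_add_neg] using h1

theorem good_two : Good 2 0 := by
  have hd : (X 1 - X 0 : A).totalDegree ≤ 2 - 1 := by
    rw [← GE_deg_iff]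
    simpa using (GE_X1 (w0 := -1) (w1 := -1)).sub GE_X0
  refine ⟨_, Polynomial.X, 3 / 2, 1, irreducible_eis (n := 2) (by norm_num) hd (by simp),
    deg_eis (by norm_num) hd, by simp, by norm_num, one_ne_zero, ?_⟩
  have h1 := (Ini_one_sub (w1 := 3 / 2)).mul (Ini_X1_pow 1)
  have h2 : GE 1 (3 / 2) 1 (X 0 + X 1 : A) := GE_X0.add (GE_X1.mono (by norm_num))
  have h3 := h1.add_gt ((h2.pow 2).gt (by rw [mo_add, wt_mo]; norm_num))
  rw [mo_add] at h3
  convert h3 using 1
  · simp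
  · simp; ring

theorem good_fam {n k i j : ℕ} (hk : 1 ≤ k) (h1 : 2 * k < n) (h2 : k + i + j < n)
    (h3 : 2 * (i + k * j) ≤ (k + 1) * (n - 2)) : Good n (i + k * j) := by
  obtain ⟨r, rfl⟩ : ∃ r, n = 2 * k + 1 + r := ⟨n - (2 * k + 1), by omega⟩
  set u : A := X 1 - X 0 ^ k with hu
  have gu : GE (-1) (-1) (-(k : ℝ)) u := by
    refine (GE_X1.mono ?_).sub (by simpa using (GE_X0 (w0 := -1) (w1 := -1)).pow k)
    have : (1 : ℝ) ≤ k := by exact_mod_cast hk
    linarith
  have hd : (u ^ 2 * X 0 ^ r - u * (X 0 ^ i * X 1 ^ j) : A).totalDegree ≤ 2 * k + 1 + r - 1 := by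
    rw [← GE_deg_iff]
    refine GE.sub (((gu.pow 2).mul (GE_X0.pow r)).mono (le_of_eq ?_))
      ((gu.mul ((GE_X0.pow i).mul (GE_X1.pow j))).mono ?_)
    · rw [show 2 * k + 1 + r - 1 = 2 * k + r by omega]; push_cast; ring
    · have : ((k + i + j : ℕ) : ℝ) ≤ ((2 * k + 1 + r - 1 : ℕ) : ℝ) := by
        exact_mod_cast (by omega : k + i + j ≤ 2 * k + 1 + r - 1)
      push_cast at this ⊢; linarith
  set a := i + k * j with ha
  have hb : a + k + 1 ≤ k * (2 * k + 1 + r) := by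
    have e1 : i ≤ k * i := Nat.le_mul_of_pos_left _ hk
    have e2 : k * (i + j) ≤ k * (k + r) := Nat.mul_le_mul_left _ (by omega)
    nlinarith
  have hb' : (a : ℝ) + k + 1 ≤ k * (2 * k + 1 + r) := by exact_mod_cast hb
  have h3' : 2 * (a : ℝ) ≤ (k + 1) * (2 * k + r - 1) := by
    have : ((2 * a : ℕ) : ℝ) ≤ (((k + 1) * (2 * k + 1 + r - 2) : ℕ) : ℝ) := by exact_mod_cast h3
    rw [Nat.cast_mul (k + 1), Nat.cast_sub (by omega)] at this
    push_cast at this; linarith
  have hk0 : (0 : ℝ) ≤ k := by positivity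
  set s : ℝ := k * (2 * k + 1 + r) - a - 1 / 2 with hs
  have hs0 : 0 ≤ s := by linarith
  refine ⟨_, Polynomial.X ^ k, s, -1, irreducible_eis (by omega) hd ?_,
    deg_eis (by omega) hd, by simp [Polynomial.coeff_X_pow]; omega, hs0, by norm_num, ?_⟩
  · rcases Nat.eq_zero_or_pos j with rfl | hj
    · simp [hu]
    · simp [hu, hj.ne']
  have iY : Ini 1 s (mo k 0) 1 (X 0 ^ k + X 1 : A) :=
    (Ini_X0_pow k).add_gt (GE_X1.gt (by rw [wt_mo]; push_cast; linarith))
  have gY : GE 1 s k (X 0 ^ k + X 1 : A) := by simpa [wt_mo] using iY.ge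
  have i1 : Ini 1 s (mo 0 1) (-1) (-X 1 : A) := by
    have := Ini_monomial (w0 := 1) (w1 := s) (mo 0 1) (-1)
    rw [monomial_mo] at this
    simpa using this
  have i2 := i1.mul ((Ini_X0_pow i).mul (iY.pow j))
  have e2 : mo 0 1 + (mo i 0 + j • mo k 0) = mo a 1 := by
    rw [nsmul_mo, mo_add, mo_add, ha]; congr 1; ring
  rw [e2] at i2
  have i3 := i2.add_gt (((GE_X1.pow 2).mul (GE_X0.pow r)).gt (by
    rw [wt_mo]; push_cast; nlinarith))
  have i4 := (Ini_one_sub.mul i3)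
  have e4 : mo 0 0 + mo a 1 = mo a 1 := by rw [mo_add]; simp
  rw [e4] at i4
  have i5 := i4.add_gt ((gY.pow (2 * k + 1 + r)).gt (by rw [wt_mo]; push_cast; linarith))
  convert i5 using 1
  · simp
  · simp [hu]; ring

end Pool.Agent.H966Z.QM
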