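import Pool.Agent.H966Z.QM.Link

set_option autoImplicit false

open MvPolynomial

namespace Pool.Agent.H966Z.QM

theorem GT.exists_ge {w0 w1 l : ℝ} {g : A} (h : GT w0 w1 l g) : ∃ L, l < L ∧ GE w0 w1 L g := by
  by_cases h0 : g.support.Nonempty
  · obtain ⟨m, hm, hmin⟩ := g.support.exists_min_image (wt w0 w1) h0
    exact ⟨_, h m hm, hmin⟩
  · exact ⟨l + 1, by linarith, fun m hm => absurd ⟨m, hm⟩ h0⟩

theorem sub_dvd_aeval_sub {R : Type*} [CommRing R] [Algebra ℂ R] (a b : R) (p : Polynomial ℂ) :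
    a - b ∣ Polynomial.aeval a p - Polynomial.aeval b p := by
  have := Polynomial.sub_dvd_eval_sub a b (p.map (algebraMap ℂ R))
  simpa [Polynomial.eval_map_algebraMap] using this

theorem mul_sub_dvd_pow_sub {R : Type*} [CommRing R] {π a b : R} (ha : π ∣ a) (hb : π ∣ b) {e : ℕ}
    (he : 2 ≤ e) : π * (a - b) ∣ a ^ e - b ^ e := by
  rw [← geom_sum₂_mul a b e]
  refine mul_dvd_mul_right (Finset.dvd_sum fun i hi => ?_) _
  by_cases h : i = 0
  · exact Dvd.dvd.mul_left (dvd_pow hb (by omega)) _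
  · exact Dvd.dvd.mul_right (dvd_pow ha h) _

theorem exists_q {p : Polynomial ℂ} (hp : p.coeff 0 = 0) {e : ℕ} (he : 2 ≤ e) (n : ℕ) :
    ∃ q : Polynomial ℂ, Polynomial.X ^ (e + 1) ∣ q - Polynomial.X ^ e ∧
      Polynomial.X ^ n ∣ q - Polynomial.X ^ e - Polynomial.aeval (q ^ e) p := by
  induction n with
  | zero => exact ⟨Polynomial.X ^ e, by simp, by simp⟩
  | succ n ih =>
    obtain ⟨q, h1, h2⟩ := ih
    have hq : Polynomial.X ^ e ∣ q := by
      have := dvd_add ((pow_dvd_pow _ (Nat.le_succ e)).trans h1) (dvd_refl (Polynomial.X ^ e))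
      simpa using this
    have hpq : Polynomial.X ^ (e + 1) ∣ Polynomial.aeval (q ^ e) p := by
      have h3 := sub_dvd_aeval_sub (q ^ e) 0 p
      have h4 : Polynomial.aeval (0 : Polynomial ℂ) p = 0 := by
        rw [← Polynomial.coeff_zero_eq_aeval_zero', hp, map_zero]
      rw [h4, sub_zero, sub_zero] at h3
      refine dvd_trans ?_ h3
      refine dvd_trans (pow_dvd_pow _ (by nlinarith : e + 1 ≤ e * e)) ?_
      rw [pow_mul]
      exact pow_dvd_pow_of_dvd hq e
    refine ⟨Polynomial.X ^ e + Polynomial.aeval (q ^ e) p, by simpa using hpq, ?_⟩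
    set q' := Polynomial.X ^ e + Polynomial.aeval (q ^ e) p with hq'
    have e1 : q' - Polynomial.X ^ e - Polynomial.aeval (q' ^ e) p =
        Polynomial.aeval (q ^ e) p - Polynomial.aeval (q' ^ e) p := by rw [hq']; ring
    rw [e1]
    refine dvd_trans ?_ (sub_dvd_aeval_sub _ _ p)
    have hx : Polynomial.X ∣ q := (dvd_pow_self _ (by omega)).trans hq
    have hx' : Polynomial.X ∣ q' :=
      dvd_add (dvd_pow_self _ (by omega)) ((dvd_pow_self _ (by omega)).trans hpq)
    refine dvd_trans ?_ (mul_sub_dvd_pow_sub hx hx' he)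
    rw [pow_succ']
    refine mul_dvd_mul_left _ ?_
    have e2 : q - q' = q - Polynomial.X ^ e - Polynomial.aeval (q ^ e) p := by rw [hq']; ring
    rwa [e2]

/-- pull-back along the finite map `(x, y) ↦ (y ^ e, y - x ^ e)` -/
noncomputable def Fs (e : ℕ) : A →ₐ[ℂ] A := aeval ![X 1 ^ e, X 1 - X 0 ^ e]

noncomputable def bas (e : ℕ) (k : Fin e × Fin e) : A := X 0 ^ (k.1 : ℕ) * X 1 ^ (k.2 : ℕ)

theorem aeval_mono (u v : A) (m : Mo) :
    (aeval ![u, v] : A →ₐ[ℂ] A) (monomial m 1) = u ^ (m 0) * v ^ (m 1) := by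
  rw [aeval_monomial, Finsupp.prod_fintype _ _ (by simp), Fin.prod_univ_two]
  simp

theorem span_bas {e : ℕ} (he : 1 ≤ e) (g : A) :
    ∃ a : Fin e × Fin e → A, g = ∑ k, Fs e (a k) * bas e k := by
  let M : Submodule (Fs e).range A := Submodule.span _ (Set.range (bas e))
  have hb : ∀ i j : ℕ, i < e → j < e → (X 0 ^ i * X 1 ^ j : A) ∈ M := fun i j hi hj =>
    Submodule.subset_span ⟨(⟨i, hi⟩, ⟨j, hj⟩), rfl⟩
  have hF : ∀ a x : A, x ∈ M → Fs e a * x ∈ M := fun a x hx =>
    M.smul_mem (⟨Fs e a, ⟨a, rfl⟩⟩ : (Fs e).range) hx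
  have hcl : ∀ y : A, (∀ k, y * bas e k ∈ M) → ∀ x ∈ M, y * x ∈ M := by
    intro y hy x hx
    induction hx using Submodule.span_induction with
    | mem x h => obtain ⟨k, rfl⟩ := h; exact hy k
    | zero => simp
    | add x x' _ _ h h' => rw [mul_add]; exact M.add_mem h h'
    | smul c x _ h => rw [mul_smul_comm]; exact M.smul_mem c h
  have hy : ∀ x ∈ M, (X 1 : A) * x ∈ M := by
    refine hcl _ fun k => ?_
    by_cases h : (k.2 : ℕ) + 1 < e
    · have := hb k.1 (k.2 + 1) k.1.2 h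
      convert this using 1
      rw [bas]; ring
    · have h2 : e = k.2 + 1 := by have := k.2.2; omega
      have := hF (X 0) _ (hb k.1 0 k.1.2 he)
      convert this using 1
      have e1 : Fs e (X 0) = X 1 ^ ((k.2 : ℕ) + 1) := by rw [← h2]; simp [Fs]
      rw [bas, e1]; ring
  have hx : ∀ x ∈ M, (X 0 : A) * x ∈ M := by
    refine hcl _ fun k => ?_
    by_cases h : (k.1 : ℕ) + 1 < e
    · have := hb (k.1 + 1) k.2 h k.2.2
      convert this using 1
      rw [bas]; ring
    · have h2 : e = k.1 + 1 := by have := k.1.2; omega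
      have h3 := hb 0 k.2 he k.2.2
      have := M.sub_mem (hy _ h3) (hF (X 1) _ h3)
      convert this using 1
      have e1 : Fs e (X 1) = X 1 - X 0 ^ ((k.1 : ℕ) + 1) := by rw [← h2]; simp [Fs]
      rw [bas, e1]; ring
  have hall : g ∈ M := by
    induction g using MvPolynomial.induction_on with
    | C c =>
      have := hF (C c) _ (hb 0 0 he he)
      simpa [Fs] using this
    | add p q hp hq => exact M.add_mem hp hq
    | mul_X p i hp =>
      rw [mul_comm]
      fin_cases i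
      · exact hx _ hp
      · exact hy _ hp
  obtain ⟨c, hc⟩ := (Submodule.mem_span_range_iff_exists_fun _).1 hall
  choose a ha using fun k => (c k).2
  refine ⟨a, ?_⟩
  rw [← hc]
  refine Finset.sum_congr rfl fun k _ => ?_
  have : (c k : A) = Fs e (a k) := (ha k).symm
  rw [← this]; rfl

theorem divmod_inj {e a b a' b' : ℕ} (hb : b < e) (hb' : b' < e) (h : e * a + b = e * a' + b') :
    a = a' ∧ b = b' := by
  have h1 : (e * a + b) % e = (e * a' + b') % e := by rw [h]
  rw [Nat.mul_add_mod, Nat.mul_add_mod, Nat.mod_eq_of_lt hb, Nat.mod_eq_of_lt hb'] at h1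
  subst h1
  have h2 : e * a = e * a' := by omega
  exact ⟨Nat.eq_of_mul_eq_mul_left (by omega) h2, rfl⟩

theorem orth_deg {e : ℕ} (he : 2 ≤ e) (a : Fin e × Fin e → A) (k : Fin e × Fin e) (m : Mo)
    (hm : m ∈ (a k).support) : ∃ m' ∈ (∑ k, Fs e (a k) * bas e k).support,
      wt (-1) (-1) m' ≤ e * wt (-1) (-1) m - ((k.1 : ℕ) + (k.2 : ℕ)) := by
  have := orth (w0 := -1) (w1 := -1) (Fs e) (bas e)
    (fun k m => mo (e * m 1 + k.1) (e * m 0 + k.2)) ?_ ?_ a k m hm
  · obtain ⟨m', h1, h2⟩ := this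
    refine ⟨m', h1, h2.trans (le_of_eq ?_)⟩
    rw [wt_mo]; unfold wt; push_cast; ring
  · intro k m k' m' h
    obtain ⟨h1, h2⟩ := mo_inj h
    obtain ⟨a1, a2⟩ := divmod_inj k.1.2 k'.1.2 h1
    obtain ⟨b1, b2⟩ := divmod_inj k.2.2 k'.2.2 h2
    refine ⟨Prod.ext (Fin.ext a2) (Fin.ext b2), ?_⟩
    rw [← mo_eta m, ← mo_eta m', a1, b1]
  · intro k m
    have h1 : Ini (-1) (-1) (mo e 0) (-1) (X 1 - X 0 ^ e : A) := by
      have h2 : Ini (-1) (-1) (mo e 0) (-1) (monomial (mo e 0) (-1)) := Ini_monomial _ _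
      have h3 : GT (-1) (-1) (wt (-1) (-1) (mo e 0)) (X 1 : A) := by
        refine GE_X1.gt ?_
        rw [wt_mo]
        have : (2 : ℝ) ≤ e := by exact_mod_cast he
        simp; linarith
      have := h2.add_gt h3
      convert this using 1
      rw [monomial_mo]; simp; ring
    have := (((Ini_X1_pow (w0 := -1) (w1 := -1) e).pow (m 0)).mul (h1.pow (m 1))).mul
      ((Ini_X0_pow k.1).mul (Ini_X1_pow k.2))
    refine ⟨_, ?_, by
      rw [Fs, aeval_mono, bas]
      convert this using 1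
      simp only [nsmul_mo, mo_add]
      congr 1 <;> ring⟩
    simp

theorem scale_PMin {p : Polynomial ℂ} (hp : p.coeff 0 = 0) {s : ℝ} (hs : 1 ≤ s) {e : ℕ}
    (he : 2 ≤ e) (h : PMin p s) :
    ∃ q : Polynomial ℂ, q.coeff 0 = 0 ∧ PMin q ((e : ℝ) ^ 2 * s) := by
  classical
  set T := (e : ℝ) ^ 2 * s with hT
  have he' : (2 : ℝ) ≤ e := by exact_mod_cast he
  have hTe : (e : ℝ) < T := by rw [hT]; nlinarith [mul_le_mul_of_nonneg_left hs (sq_nonneg (e : ℝ))]
  have hT0 : 0 ≤ T := by linarith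
  obtain ⟨n, hn⟩ := exists_nat_gt T
  obtain ⟨q, hq1, hq2⟩ := exists_q hp he n
  refine ⟨q, ?_, ?_⟩
  · have := Polynomial.X_pow_dvd_iff.1 hq1 0 (by omega)
    rw [Polynomial.coeff_sub, Polynomial.coeff_X_pow, if_neg (by omega)] at this
    simpa using this
  intro d f hf0 hfd hGT
  set Q : A := Polynomial.aeval (X 0 : A) q with hQ
  have iQ : Ini 1 T (mo e 0) 1 Q := by
    have h1 := GE_aeval_of_dvd (w0 := 1) (w1 := T) zero_le_one hT0 hq1
    have h2 := (Ini_X0_pow (w0 := 1) (w1 := T) e).add_gt (h1.gt (by rw [wt_mo]; push_cast; linarith))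
    convert h2 using 1
    simp [hQ]
  have iY : Ini 1 T (mo e 0) 1 (Q + X 1) := iQ.add_gt (GE_X1.gt (by rw [wt_mo]; simpa using hTe))
  have gQ : GE 1 T e Q := by simpa [wt_mo] using iQ.ge
  have gY : GE 1 T e (Q + X 1) := by simpa [wt_mo] using iY.ge
  set w : A := (Q + X 1) ^ e with hw
  set z : A := Q + X 1 - X 0 ^ e - Polynomial.aeval w p with hz
  have iz : Ini 1 T (mo 0 1) 1 z := by
    have h1 := GE_aeval_of_dvd (w0 := 1) (w1 := T) zero_le_one hT0 hq2
    obtain ⟨r, hr⟩ := sub_dvd_aeval_sub w (Q ^ e) p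
    have h2 : GE 1 T (((e - 1 : ℕ) : ℝ) * e + T + 0) (Polynomial.aeval w p - Polynomial.aeval (Q ^ e) p) := by
      rw [hr, hw, ← geom_sum₂_mul (Q + X 1) Q e]
      refine GE.mul (GE.mul (GE_sum _ _ fun i hi => ?_) ?_) (GE_nonneg zero_le_one hT0 _)
      · have := (gY.pow i).mul (gQ.pow (e - 1 - i))
        convert this using 1
        rw [← add_mul, ← Nat.cast_add]
        have : i < e := Finset.mem_range.1 hi
        congr 2; omega
      · simpa using GE_X1
    have h3 : (0 : ℝ) < ((e - 1 : ℕ) : ℝ) * e := by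
      have : 0 < (e - 1) * e := Nat.mul_pos (by omega) (by omega)
      exact_mod_cast this
    have h4 := (Ini_X1_pow (w0 := 1) (w1 := T) 1).add_gt
      ((h1.gt (by rw [wt_mo]; simpa using hn)).sub (h2.gt (by rw [wt_mo]; simp; linarith)))
    convert h4 using 1
    rw [hz, map_sub, map_sub, map_pow, Polynomial.aeval_X, ← hQ, ← Polynomial.aeval_algHom_apply,
      map_pow, ← hQ]
    ring
  let Θ : A →ₐ[ℂ] A := aeval ![w, z]
  have hΘ : ∀ a, sh q (Fs e a) = Θ (sh p a) := by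
    intro a
    have : (sh q).comp (Fs e) = Θ.comp (sh p) := by
      apply MvPolynomial.algHom_ext
      intro i
      fin_cases i
      · simp [Fs, Θ, hw, hQ]
      · simp only [Fin.mk_one, AlgHom.comp_apply, sh_X1, map_add, ← Polynomial.aeval_algHom_apply]
        simp [Fs, Θ, hz, hQ]
    exact congrArg (fun φ : A →ₐ[ℂ] A => φ a) this
  have orthv : ∀ (a : Fin e × Fin e → A) (k : Fin e × Fin e) (m : Mo), m ∈ (a k).support →
      ∃ m' ∈ (∑ k, Θ (a k) * sh q (bas e k)).support,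
        wt 1 T m' ≤ (e : ℝ) ^ 2 * wt 1 s m + ((k.1 : ℕ) + e * (k.2 : ℕ)) := by
    intro a k m hm
    have := orth (w0 := 1) (w1 := T) Θ (fun k => sh q (bas e k))
      (fun k m => mo (e * (e * m 0 + k.2) + k.1) (m 1)) ?_ ?_ a k m hm
    · obtain ⟨m', h1, h2⟩ := this
      refine ⟨m', h1, h2.trans (le_of_eq ?_)⟩
      rw [wt_mo]; unfold wt; push_cast; rw [hT]; ring
    · intro k m k' m' h
      obtain ⟨h1, h2⟩ := mo_inj h
      obtain ⟨a1, a2⟩ := divmod_inj k.1.2 k'.1.2 h1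
      obtain ⟨b1, b2⟩ := divmod_inj k.2.2 k'.2.2 a1
      refine ⟨Prod.ext (Fin.ext a2) (Fin.ext b2), ?_⟩
      rw [← mo_eta m, ← mo_eta m', h2, b1]
    · intro k m
      have := (((iY.pow e).pow (m 0)).mul (iz.pow (m 1))).mul
        ((Ini_X0_pow k.1).mul (iY.pow k.2))
      refine ⟨_, ?_, by
        simp only [Θ]
        rw [aeval_mono, bas, map_mul, map_pow, map_pow, sh_X0, sh_X1, ← hQ]
        convert this using 1
        simp only [nsmul_mo, mo_add]
        congr 1 <;> ring⟩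
      simp
  choose M' hM using fun l => span_bas (by omega : 1 ≤ e) (f * bas e l)
  let M : Matrix (Fin e × Fin e) (Fin e × Fin e) A := Matrix.of fun k l => M' l k
  have hcard : (Fintype.card (Fin e × Fin e) : ℝ) = (e : ℝ) ^ 2 := by simp [sq]
  have he0 : (0 : ℝ) < e := by linarith
  have hdeg : M.det.totalDegree ≤ e * d := by
    rw [← GE_deg_iff]
    have := GE_det (w0 := -1) (w1 := -1) M (-(d : ℝ) / e)
      (fun k => -(((k.1 : ℕ) : ℝ) + (k.2 : ℕ)) / e) (by
        intro k l m hm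
        obtain ⟨m', h1, h2⟩ := orth_deg he (M' l) k m hm
        rw [← hM] at h1
        have h3 := ((GE_deg_iff f d).2 hfd).mul
          ((GE_X0.pow (l.1 : ℕ)).mul (GE_X1.pow (l.2 : ℕ))) m' h1
        rw [← add_div, ← sub_div, div_le_iff₀ he0]
        linarith)
    convert this using 1
    rw [hcard]; push_cast; field_simp
  have hdet : M.det ≠ 0 := by
    intro h0
    obtain ⟨v, hv0, hv⟩ := Matrix.exists_mulVec_eq_zero_iff.2 h0
    have h1 : f * ∑ l, Fs e (v l) * bas e l = 0 := by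
      rw [Finset.mul_sum]
      have : ∀ l, f * (Fs e (v l) * bas e l) = ∑ k, Fs e (M k l * v l) * bas e k := by
        intro l
        rw [mul_left_comm, hM l, Finset.mul_sum]
        refine Finset.sum_congr rfl fun k _ => ?_
        simp only [M, Matrix.of_apply, map_mul]; ring
      simp only [this]
      rw [Finset.sum_comm]
      refine Finset.sum_eq_zero fun k _ => ?_
      rw [← Finset.sum_mul, ← map_sum]
      have h2 : ∑ l, M k l * v l = 0 := congrFun hv k
      rw [h2, map_zero, zero_mul]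
    have h2 := (mul_eq_zero.1 h1).resolve_left hf0
    apply hv0
    funext l
    by_contra hne
    obtain ⟨m, hm⟩ := support_nonempty.2 hne
    obtain ⟨m', h3, _⟩ := orth_deg he v l m hm
    rw [h2] at h3
    simp at h3
  obtain ⟨L, hL, hGE⟩ := hGT.exists_ge
  apply h (e * d) M.det hdet hdeg
  have he2 : (0 : ℝ) < (e : ℝ) ^ 2 := by positivity
  have := GE_det (w0 := 1) (w1 := s) ((sh p).toRingHom.mapMatrix M) (L / (e : ℝ) ^ 2)
    (fun k => (((k.1 : ℕ) : ℝ) + e * (k.2 : ℕ)) / (e : ℝ) ^ 2) (by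
      intro k l m hm
      obtain ⟨m', h1, h2⟩ := orthv (fun k => sh p (M' l k)) k m hm
      have e1 : ∑ k, Θ (sh p (M' l k)) * sh q (bas e k) = sh q f * sh q (bas e l) := by
        rw [← map_mul, hM l, map_sum]
        refine Finset.sum_congr rfl fun k _ => ?_
        rw [map_mul, hΘ]
      rw [e1, bas, map_mul, map_pow, map_pow, sh_X0, sh_X1, ← hQ] at h1
      have h3 := hGE.mul ((GE_X0.pow (l.1 : ℕ)).mul (gY.pow (l.2 : ℕ))) m' h1
      rw [← add_div, ← sub_div, div_le_iff₀ he2]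
      linarith)
  rw [← RingHom.map_det, hcard, mul_div_cancel₀ _ he2.ne'] at this
  refine GE.gt this (lt_of_eq_of_lt ?_ hL)
  rw [hT, Real.sqrt_mul (sq_nonneg _), Real.sqrt_sq he0.le]
  push_cast; ring

theorem VGMin_scale {s : ℝ} (hs : 1 ≤ s) {e : ℕ} (he : 1 ≤ e) (h : VGMin s) :
    VGMin ((e : ℝ) ^ 2 * s) := by
  rcases he.eq_or_lt with rfl | he
  · simpa using h
  · obtain ⟨p, hp, hm⟩ := PMin_of_VGMin h
    obtain ⟨q, hq, hm'⟩ := scale_PMin hp hs he hm
    have he' : (2 : ℝ) ≤ e := by exact_mod_cast he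
    exact VGMin_of_PMin hq (by nlinarith [mul_le_mul_of_nonneg_left hs (sq_nonneg (e : ℝ))]) hm'

end Pool.Agent.H966Z.QM
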