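import Pool.Agent.H966Z.QM.Curves

set_option autoImplicit false

namespace Pool.Agent.H966Z.QM

theorem good_eighth {n a : ℕ} (hn : 2 ≤ n) (h : 8 * a ≤ n ^ 2) : Good n a := by
  rcases hn.eq_or_lt with rfl | hn
  · have : a = 0 := by omega
    subst this; exact good_two
  obtain ⟨k, r, hr, rfl⟩ : ∃ k r, r < 4 ∧ n = 4 * k + 3 + r :=
    ⟨(n - 3) / 4, (n - 3) % 4, Nat.mod_lt _ (by norm_num), by omega⟩
  have e : a = a % (k + 1) + (k + 1) * (a / (k + 1)) := (Nat.mod_add_div _ _).symm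
  have hi : a % (k + 1) < k + 1 := Nat.mod_lt _ (by omega)
  have hj : a / (k + 1) < 2 * k + 2 + r := by
    rw [Nat.div_lt_iff_lt_mul (by omega)]
    interval_cases r <;> nlinarith
  rw [e]
  refine good_fam (by omega) (by omega) (by omega) ?_
  rw [← e, show 4 * k + 3 + r - 2 = 4 * k + 1 + r by omega]
  interval_cases r
  · nlinarith
  · nlinarith
  · nlinarith
  · have h1 : 2 * a ≤ (2 * k + 3) ^ 2 := by nlinarith
    have h2 : (2 * k + 3) ^ 2 = 2 * (2 * k ^ 2 + 6 * k + 4) + 1 := by ring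
    have h3 : (k + 1 + 1) * (4 * k + 1 + 3) = 2 * (2 * k ^ 2 + 6 * k + 4) := by ring
    omega

theorem values_irr (n a : ℕ) (τ : ℝ) (hn : 2 ≤ n)
    (h : 8 * a ≤ n ^ 2 ∨ ∃ k i j : ℕ, 1 ≤ k ∧ 2 * k < n ∧ k + i + j < n ∧ a = i + k * j ∧
      2 * a ≤ (k + 1) * (n - 2))
    (h1 : (n : ℝ) < 2 * τ) (h2 : τ ^ 2 + a = n * τ) : VGMin (τ ^ 2) := by
  refine VGMin_irr hn ?_ h1 h2
  rcases h with h | ⟨k, i, j, hk, a1, a2, rfl, a3⟩
  · exact good_eighth hn h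
  · exact good_fam hk a1 a2 a3

theorem good_max {q : ℕ} (hq : 2 ≤ q) : ∃ a, Good q a ∧ 4 * a + 2 * q = q ^ 2 + q % 2 := by
  rcases hq.eq_or_lt with rfl | hq
  · exact ⟨0, good_two, by norm_num⟩
  obtain ⟨k, r, hr, rfl⟩ : ∃ k r, r < 2 ∧ q = 2 * k + 3 + r :=
    ⟨(q - 3) / 2, (q - 3) % 2, Nat.mod_lt _ (by norm_num), by omega⟩
  refine ⟨0 + (k + 1) * (k + 1 + r), good_fam (by omega) (by omega) (by omega) ?_, ?_⟩
  · rw [show 2 * k + 3 + r - 2 = 2 * k + 1 + r by omega]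
    interval_cases r <;> nlinarith
  · interval_cases r
    · rw [show (2 * k + 3 + 0) % 2 = 1 by omega]; ring
    · rw [show (2 * k + 3 + 1) % 2 = 0 by omega]; ring

theorem values_rat (p q : ℕ) (hq : 2 ≤ q)
    (h : (q : ℝ) + Real.sqrt (2 * q - (q % 2 : ℕ)) < 2 * ((p : ℝ) / q)) :
    VGMin (((p : ℝ) / q) ^ 2) := by
  obtain ⟨a, hG, ha⟩ := good_max hq
  have hq' : (2 : ℝ) ≤ q := by exact_mod_cast hq
  have hm : q % 2 < 2 := Nat.mod_lt _ (by norm_num)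
  have hm' : ((q % 2 : ℕ) : ℝ) < 2 := by exact_mod_cast hm
  have ha' : (4 : ℝ) * a + 2 * q = q ^ 2 + (q % 2 : ℕ) := by exact_mod_cast ha
  have h0 := Real.sqrt_nonneg (2 * q - (q % 2 : ℕ))
  have h1 := Real.sq_sqrt (by linarith : (0 : ℝ) ≤ 2 * q - (q % 2 : ℕ))
  refine VGMin_rat hq hG (by omega) (by linarith) (by nlinarith) (β := p) ?_
  field_simp

end Pool.Agent.H966Z.QM
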