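import Mathlib

set_option autoImplicit false

open MvPolynomial

namespace Pool.Agent.H966Z.QM

abbrev A := MvPolynomial (Fin 2) ℂ
abbrev Mo := Fin 2 →₀ ℕ

/-- weight of a monomial -/
noncomputable def wt (w0 w1 : ℝ) (m : Mo) : ℝ := w0 * (m 0 : ℝ) + w1 * (m 1 : ℝ)

theorem wt_add (w0 w1 : ℝ) (m m' : Mo) : wt w0 w1 (m + m') = wt w0 w1 m + wt w0 w1 m' := by
  simp [wt]; ring

theorem wt_zero (w0 w1 : ℝ) : wt w0 w1 0 = 0 := by simp [wt]

noncomputable def mo (i j : ℕ) : Mo := Finsupp.single 0 i + Finsupp.single 1 j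

@[simp] theorem mo_zero' (i j : ℕ) : mo i j 0 = i := by simp [mo]
@[simp] theorem mo_one' (i j : ℕ) : mo i j 1 = j := by simp [mo]

theorem mo_eta (m : Mo) : mo (m 0) (m 1) = m := by
  ext k; fin_cases k <;> simp

theorem mo_inj {i j i' j' : ℕ} (h : mo i j = mo i' j') : i = i' ∧ j = j' := by
  have h0 := congrArg (fun m : Mo => m 0) h
  have h1 := congrArg (fun m : Mo => m 1) h
  simpa using And.intro h0 h1

theorem mo_add (i j i' j' : ℕ) : mo i j + mo i' j' = mo (i + i') (j + j') := by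
  ext k; fin_cases k <;> simp

theorem wt_mo (w0 w1 : ℝ) (i j : ℕ) : wt w0 w1 (mo i j) = w0 * i + w1 * j := by simp [wt]

theorem monomial_mo (i j : ℕ) (c : ℂ) : (monomial (mo i j) c : A) = C c * X 0 ^ i * X 1 ^ j := by
  rw [X_pow_eq_monomial, X_pow_eq_monomial, C_mul_monomial, monomial_mul, mo]; simp

def GE (w0 w1 l : ℝ) (g : A) : Prop := ∀ m ∈ g.support, l ≤ wt w0 w1 m
def GT (w0 w1 l : ℝ) (g : A) : Prop := ∀ m ∈ g.support, l < wt w0 w1 m

variable {w0 w1 : ℝ}

theorem GT.ge {l : ℝ} {g : A} (h : GT w0 w1 l g) : GE w0 w1 l g := fun m hm => (h m hm).le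
theorem GE.gt {l l' : ℝ} {g : A} (h : GE w0 w1 l g) (hl : l' < l) : GT w0 w1 l' g :=
  fun m hm => hl.trans_le (h m hm)
theorem GE.mono {l l' : ℝ} {g : A} (h : GE w0 w1 l g) (hl : l' ≤ l) : GE w0 w1 l' g :=
  fun m hm => hl.trans (h m hm)
theorem GT.mono {l l' : ℝ} {g : A} (h : GT w0 w1 l g) (hl : l' ≤ l) : GT w0 w1 l' g :=
  fun m hm => hl.trans_lt (h m hm)

theorem GE_zero (l : ℝ) : GE w0 w1 l 0 := by simp [GE]
theorem GT_zero (l : ℝ) : GT w0 w1 l 0 := by simp [GT]

theorem GE.add {l : ℝ} {f g : A} (hf : GE w0 w1 l f) (hg : GE w0 w1 l g) : GE w0 w1 l (f + g) := by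
  classical
  intro m hm
  rcases Finset.mem_union.1 (support_add hm) with h | h
  exacts [hf m h, hg m h]

theorem GT.add {l : ℝ} {f g : A} (hf : GT w0 w1 l f) (hg : GT w0 w1 l g) : GT w0 w1 l (f + g) := by
  classical
  intro m hm
  rcases Finset.mem_union.1 (support_add hm) with h | h
  exacts [hf m h, hg m h]

theorem GE.neg {l : ℝ} {f : A} (hf : GE w0 w1 l f) : GE w0 w1 l (-f) := by
  intro m hm; rw [support_neg] at hm; exact hf m hm
theorem GT.neg {l : ℝ} {f : A} (hf : GT w0 w1 l f) : GT w0 w1 l (-f) := by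
  intro m hm; rw [support_neg] at hm; exact hf m hm

theorem GE.sub {l : ℝ} {f g : A} (hf : GE w0 w1 l f) (hg : GE w0 w1 l g) : GE w0 w1 l (f - g) := by
  rw [sub_eq_add_neg]; exact hf.add hg.neg
theorem GT.sub {l : ℝ} {f g : A} (hf : GT w0 w1 l f) (hg : GT w0 w1 l g) : GT w0 w1 l (f - g) := by
  rw [sub_eq_add_neg]; exact hf.add hg.neg

theorem supp_mul {f g : A} {m : Mo} (hm : m ∈ (f * g).support) :
    ∃ a ∈ f.support, ∃ b ∈ g.support, a + b = m := by
  classical
  exact Finset.mem_add.1 (support_mul f g hm)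

theorem GE.mul {l l' : ℝ} {f g : A} (hf : GE w0 w1 l f) (hg : GE w0 w1 l' g) :
    GE w0 w1 (l + l') (f * g) := by
  intro m hm
  obtain ⟨a, ha, b, hb, rfl⟩ := supp_mul hm
  rw [wt_add]; exact add_le_add (hf a ha) (hg b hb)

theorem GT.mul_ge {l l' : ℝ} {f g : A} (hf : GT w0 w1 l f) (hg : GE w0 w1 l' g) :
    GT w0 w1 (l + l') (f * g) := by
  intro m hm
  obtain ⟨a, ha, b, hb, rfl⟩ := supp_mul hm
  rw [wt_add]; exact add_lt_add_of_lt_of_le (hf a ha) (hg b hb)

theorem GE.mul_gt {l l' : ℝ} {f g : A} (hf : GE w0 w1 l f) (hg : GT w0 w1 l' g) :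
    GT w0 w1 (l + l') (f * g) := by
  rw [mul_comm, add_comm]; exact hg.mul_ge hf

theorem GE_monomial (m : Mo) (c : ℂ) : GE w0 w1 (wt w0 w1 m) (monomial m c : A) := by
  classical
  intro m' hm'
  have := support_monomial_subset hm'
  rw [Finset.mem_singleton] at this
  rw [this]

theorem GE_C (c : ℂ) : GE w0 w1 0 (C c : A) := by
  have := GE_monomial (w0 := w0) (w1 := w1) 0 c
  rwa [wt_zero] at this

theorem GE_one : GE w0 w1 0 (1 : A) := by simpa using GE_C (w0 := w0) (w1 := w1) 1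

theorem GE_X0 : GE w0 w1 w0 (X 0 : A) := by
  have := GE_monomial (w0 := w0) (w1 := w1) (Finsupp.single 0 1) 1
  have e : wt w0 w1 (Finsupp.single 0 1) = w0 := by simp [wt]
  rw [e] at this
  exact this

theorem GE_X1 : GE w0 w1 w1 (X 1 : A) := by
  have := GE_monomial (w0 := w0) (w1 := w1) (Finsupp.single 1 1) 1
  have e : wt w0 w1 (Finsupp.single 1 1) = w1 := by simp [wt]
  rw [e] at this
  exact this

theorem GE.pow {l : ℝ} {f : A} (hf : GE w0 w1 l f) (n : ℕ) : GE w0 w1 (n * l) (f ^ n) := by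
  induction n with
  | zero => simpa using GE_one
  | succ n ih =>
    have := ih.mul hf
    rw [pow_succ]
    convert this using 1
    push_cast; ring

theorem GE.C_mul {l : ℝ} {f : A} (hf : GE w0 w1 l f) (c : ℂ) : GE w0 w1 l (C c * f) := by
  simpa using (GE_C c).mul hf
theorem GT.C_mul {l : ℝ} {f : A} (hf : GT w0 w1 l f) (c : ℂ) : GT w0 w1 l (C c * f) := by
  simpa using (GE_C c).mul_gt hf

theorem GE_sum {ι : Type*} {l : ℝ} (s : Finset ι) (f : ι → A) (h : ∀ i ∈ s, GE w0 w1 l (f i)) :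
    GE w0 w1 l (∑ i ∈ s, f i) :=
  Finset.sum_induction f _ (fun _ _ => GE.add) (GE_zero l) h

theorem GT_sum {ι : Type*} {l : ℝ} (s : Finset ι) (f : ι → A) (h : ∀ i ∈ s, GT w0 w1 l (f i)) :
    GT w0 w1 l (∑ i ∈ s, f i) :=
  Finset.sum_induction f _ (fun _ _ => GT.add) (GT_zero l) h

theorem GE_prod {ι : Type*} (s : Finset ι) (f : ι → A) (l : ι → ℝ)
    (h : ∀ i ∈ s, GE w0 w1 (l i) (f i)) : GE w0 w1 (∑ i ∈ s, l i) (∏ i ∈ s, f i) := by
  classical
  induction s using Finset.induction_on with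
  | empty => simpa using GE_one
  | insert a s ha ih =>
    rw [Finset.sum_insert ha, Finset.prod_insert ha]
    exact (h a (Finset.mem_insert_self _ _)).mul (ih fun i hi => h i (Finset.mem_insert_of_mem hi))

theorem GE_nonneg (h0 : 0 ≤ w0) (h1 : 0 ≤ w1) (g : A) : GE w0 w1 0 g := by
  intro m _
  unfold wt; positivity

/-- `g` has initial monomial `c X^m`. -/
def Ini (w0 w1 : ℝ) (m : Mo) (c : ℂ) (g : A) : Prop := GT w0 w1 (wt w0 w1 m) (g - monomial m c)

theorem Ini.ge {m : Mo} {c : ℂ} {g : A} (h : Ini w0 w1 m c g) : GE w0 w1 (wt w0 w1 m) g := by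
  have := (GT.ge h).add (GE_monomial m c)
  simpa using this

theorem Ini.mul {m m' : Mo} {c c' : ℂ} {g g' : A} (h : Ini w0 w1 m c g) (h' : Ini w0 w1 m' c' g') :
    Ini w0 w1 (m + m') (c * c') (g * g') := by
  unfold Ini
  have e : g * g' - monomial (m + m') (c * c') =
      (g - monomial m c) * g' + monomial m c * (g' - monomial m' c') := by
    rw [← monomial_mul]; ring
  rw [e, wt_add]
  exact (GT.mul_ge h h'.ge).add ((GE_monomial m c).mul_gt h')

theorem Ini_monomial (m : Mo) (c : ℂ) : Ini w0 w1 m c (monomial m c) := by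
  unfold Ini; rw [sub_self]; exact GT_zero _

theorem Ini.pow {m : Mo} {c : ℂ} {g : A} (h : Ini w0 w1 m c g) (n : ℕ) :
    Ini w0 w1 (n • m) (c ^ n) (g ^ n) := by
  induction n with
  | zero => simpa using Ini_monomial (w0 := w0) (w1 := w1) 0 1
  | succ n ih => rw [succ_nsmul, pow_succ, pow_succ]; exact ih.mul h

theorem Ini.add_gt {m : Mo} {c : ℂ} {g r : A} (h : Ini w0 w1 m c g) (hr : GT w0 w1 (wt w0 w1 m) r) :
    Ini w0 w1 m c (g + r) := by
  unfold Ini
  have e : g + r - monomial m c = (g - monomial m c) + r := by ring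
  rw [e]; exact GT.add h hr

theorem Ini_X0_pow (n : ℕ) : Ini w0 w1 (mo n 0) 1 (X 0 ^ n : A) := by
  have := Ini_monomial (w0 := w0) (w1 := w1) (mo n 0) 1
  rwa [monomial_mo, C_1, one_mul, pow_zero, mul_one] at this

theorem Ini_X1_pow (n : ℕ) : Ini w0 w1 (mo 0 n) 1 (X 1 ^ n : A) := by
  have := Ini_monomial (w0 := w0) (w1 := w1) (mo 0 n) 1
  rwa [monomial_mo, C_1, one_mul, pow_zero, one_mul] at this

theorem nsmul_mo (n i j : ℕ) : n • mo i j = mo (n * i) (n * j) := by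
  ext k; fin_cases k <;> simp

/-- orthogonality of a family with distinct initial monomials -/
theorem orth {ι : Type*} [Fintype ι] (Θ : A →ₐ[ℂ] A) (b : ι → A) (lead : ι → Mo → Mo)
    (hinj : ∀ k m k' m', lead k m = lead k' m' → k = k' ∧ m = m')
    (hl : ∀ k m, ∃ c : ℂ, c ≠ 0 ∧ Ini w0 w1 (lead k m) c (Θ (monomial m 1) * b k))
    (a : ι → A) (k : ι) (m : Mo) (hm : m ∈ (a k).support) :
    ∃ m' ∈ (∑ k, Θ (a k) * b k).support, wt w0 w1 m' ≤ wt w0 w1 (lead k m) := by
  classical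
  let S : Finset (Σ _ : ι, Mo) := Finset.univ.sigma fun k => (a k).support
  have hS : S.Nonempty := ⟨⟨k, m⟩, by simp only [S, Finset.mem_sigma]; exact ⟨Finset.mem_univ _, hm⟩⟩
  obtain ⟨⟨k0, m0⟩, h0, hmin⟩ := S.exists_min_image (fun p => wt w0 w1 (lead p.1 p.2)) hS
  have hm0 : m0 ∈ (a k0).support := by
    simp only [S, Finset.mem_sigma] at h0; exact h0.2
  refine ⟨lead k0 m0, ?_, hmin ⟨k, m⟩ (by simp only [S, Finset.mem_sigma]; exact ⟨Finset.mem_univ _, hm⟩)⟩
  choose c hc hini using hl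
  have hexp : ∀ k, Θ (a k) * b k = ∑ m ∈ (a k).support, C (coeff m (a k)) * (Θ (monomial m 1) * b k) := by
    intro k
    conv_lhs => rw [(a k).as_sum]
    rw [map_sum, Finset.sum_mul]
    refine Finset.sum_congr rfl fun m _ => ?_
    have : (monomial m (coeff m (a k)) : A) = C (coeff m (a k)) * monomial m 1 := by
      rw [C_mul_monomial, mul_one]
    rw [this, map_mul, ← MvPolynomial.algebraMap_eq, AlgHom.commutes, mul_assoc]
  have hco : ∀ k, ∀ m ∈ (a k).support, coeff (lead k0 m0) (Θ (monomial m 1) * b k) =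
      if k = k0 ∧ m = m0 then c k0 m0 else 0 := by
    intro k m hm
    have h1 : coeff (lead k0 m0) (Θ (monomial m 1) * b k - monomial (lead k m) (c k m)) = 0 := by
      by_contra hne
      have h2 := hini k m _ (mem_support_iff.2 hne)
      have h3 := hmin ⟨k, m⟩ (by simp only [S, Finset.mem_sigma]; exact ⟨Finset.mem_univ _, hm⟩)
      exact absurd h2 (not_lt.2 h3)
    rw [coeff_sub, sub_eq_zero, coeff_monomial] at h1
    rw [h1]
    by_cases h : k = k0 ∧ m = m0
    · obtain ⟨rfl, rfl⟩ := h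
      simp
    · rw [if_neg h, if_neg]
      intro e; exact h (hinj _ _ _ _ e)
  rw [mem_support_iff, coeff_sum]
  have : ∀ k, coeff (lead k0 m0) (Θ (a k) * b k) =
      if k = k0 then coeff m0 (a k0) * c k0 m0 else 0 := by
    intro k
    rw [hexp, coeff_sum]
    simp only [coeff_C_mul]
    rw [Finset.sum_congr rfl (fun m hm => by rw [hco k m hm])]
    by_cases hk : k = k0
    · subst hk
      rw [if_pos rfl, Finset.sum_eq_single m0]
      · simp
      · intro m _ hne; simp [hne]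
      · intro h; exact absurd hm0 h
    · simp [hk]
  simp only [this, Finset.sum_ite_eq', Finset.mem_univ, if_true]
  exact mul_ne_zero (mem_support_iff.1 hm0) (hc _ _)

/-- cancellation of a factor with a monomial initial form -/
theorem cancel {M : Mo} {c : ℂ} (hc : c ≠ 0) {b : A} (hb : Ini w0 w1 M c b) (a : A) (m : Mo)
    (hm : m ∈ a.support) : ∃ m' ∈ (a * b).support, wt w0 w1 m' ≤ wt w0 w1 m + wt w0 w1 M := by
  have := orth (w0 := w0) (w1 := w1) (ι := Unit) (AlgHom.id ℂ A) (fun _ => b) (fun _ m => m + M)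
    (fun _ _ _ _ h => ⟨rfl, add_right_cancel h⟩)
    (fun _ m => ⟨c, hc, by simpa using (Ini_monomial (w0 := w0) (w1 := w1) m 1).mul hb⟩)
    (fun _ => a) () m hm
  simpa [wt_add] using this

theorem GE.cancel {M : Mo} {c : ℂ} (hc : c ≠ 0) {a b : A} (hb : Ini w0 w1 M c b) {l : ℝ}
    (h : GE w0 w1 l (a * b)) : GE w0 w1 (l - wt w0 w1 M) a := by
  intro m hm
  obtain ⟨m', hm', hle⟩ := QM.cancel hc hb a m hm
  linarith [h m' hm']

theorem GT.cancel {M : Mo} {c : ℂ} (hc : c ≠ 0) {a b : A} (hb : Ini w0 w1 M c b) {l : ℝ}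
    (h : GT w0 w1 l (a * b)) : GT w0 w1 (l - wt w0 w1 M) a := by
  intro m hm
  obtain ⟨m', hm', hle⟩ := QM.cancel hc hb a m hm
  linarith [h m' hm']

theorem GE_det {ι : Type*} [Fintype ι] [DecidableEq ι] (M : Matrix ι ι A) (γ : ℝ) (α : ι → ℝ)
    (h : ∀ k l, GE w0 w1 (γ + α l - α k) (M k l)) : GE w0 w1 (Fintype.card ι * γ) M.det := by
  rw [Matrix.det_apply']
  apply GE_sum
  intro σ _
  have h1 := GE_prod (w0 := w0) (w1 := w1) Finset.univ (fun i => M (σ i) i)
    (fun i => γ + α i - α (σ i)) (fun i _ => h _ _)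
  have h2 : ∑ i, (γ + α i - α (σ i)) = Fintype.card ι * γ := by
    rw [Finset.sum_sub_distrib, Finset.sum_add_distrib, Equiv.sum_comp σ α]
    simp
  rw [h2] at h1
  have h3 : ((Equiv.Perm.sign σ : ℤ) : A) = C ((Equiv.Perm.sign σ : ℤ) : ℂ) := by simp
  rw [h3]
  exact h1.C_mul _

theorem GE_deg_iff (g : A) (d : ℕ) : GE (-1) (-1) (-(d : ℝ)) g ↔ g.totalDegree ≤ d := by
  have key : ∀ m : Mo, (m.sum fun _ e => e) = m 0 + m 1 := by
    intro m
    rw [Finsupp.sum_fintype _ _ (by simp)]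
    simp
  constructor
  · intro h
    rw [totalDegree, Finset.sup_le_iff]
    intro m hm
    have := h m hm
    rw [key]
    unfold wt at this
    have h2 : ((m 0 + m 1 : ℕ) : ℝ) ≤ d := by push_cast; linarith
    exact_mod_cast h2
  · intro h m hm
    have h1 := (le_totalDegree hm).trans h
    rw [key] at h1
    have h2 : ((m 0 + m 1 : ℕ) : ℝ) ≤ d := by exact_mod_cast h1
    push_cast at h2
    unfold wt; linarith

/-- the shear `x ↦ x`, `y ↦ p(x) + y` -/
noncomputable def sh (p : Polynomial ℂ) : A →ₐ[ℂ] A :=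
  aeval ![X 0, Polynomial.aeval (X 0 : A) p + X 1]

@[simp] theorem sh_X0 (p : Polynomial ℂ) : sh p (X 0) = X 0 := by simp [sh]
@[simp] theorem sh_X1 (p : Polynomial ℂ) : sh p (X 1) = Polynomial.aeval (X 0 : A) p + X 1 := by
  simp [sh]

theorem sh_aeval (p q : Polynomial ℂ) :
    sh p (Polynomial.aeval (X 0 : A) q) = Polynomial.aeval (X 0 : A) q := by
  rw [← Polynomial.aeval_algHom_apply, sh_X0]

theorem sh_sh (p : Polynomial ℂ) (g : A) : sh p (sh (-p) g) = g := by
  have : (sh p).comp (sh (-p)) = AlgHom.id ℂ A := by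
    apply MvPolynomial.algHom_ext
    intro i
    fin_cases i
    · simp
    · simp [sh_aeval]
  exact congrArg (fun φ : A →ₐ[ℂ] A => φ g) this

theorem sh_surj (p : Polynomial ℂ) : Function.Surjective (sh p) := fun g => ⟨_, sh_sh p g⟩

theorem sh_inj (p : Polynomial ℂ) : Function.Injective (sh p) := by
  intro a b h
  have := congrArg (sh (-p)) h
  have e : ∀ g, sh (-p) (sh p g) = g := fun g => by simpa using sh_sh (-p) g
  rwa [e, e] at this

theorem GE_aeval_of_dvd (h0 : 0 ≤ w0) (h1 : 0 ≤ w1) {q : Polynomial ℂ} {n : ℕ}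
    (h : Polynomial.X ^ n ∣ q) : GE w0 w1 (n * w0) (Polynomial.aeval (X 0 : A) q) := by
  obtain ⟨r, rfl⟩ := h
  rw [map_mul, map_pow, Polynomial.aeval_X]
  simpa using (GE_X0.pow n).mul (GE_nonneg h0 h1 _)

/-- minimality of the valuation attached to the polynomial germ `y = p(x)` and the weight `t` -/
def PMin (p : Polynomial ℂ) (t : ℝ) : Prop :=
  ∀ (d : ℕ) (g : A), g ≠ 0 → g.totalDegree ≤ d → ¬ GT 1 t (d * Real.sqrt t) (sh p g)

end Pool.Agent.H966Z.QM
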